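import Pool.Agent.X55.Baker.Sieve

set_option autoImplicit false

/-! # Almost prime solutions of `a x + b y = e z + d` -/

namespace Pool.Agent.X55.Baker

open Finset Filter Pool.Agent.H373R2.T7 Pool.Agent.X55.Fam

lemma per_lin (u v : ℤ) (p n : ℕ) : (p : ℤ) ∣ u + v * n ↔ (p : ℤ) ∣ u + v * ((n % p : ℕ) : ℤ) := by
  have h : (n : ℤ) = ((n % p : ℕ) : ℤ) + p * ((n / p : ℕ) : ℤ) := by exact_mod_cast (Nat.mod_add_div n p).symm
  obtain ⟨w, hw⟩ : ∃ w : ℤ, w = ((n % p : ℕ) : ℤ) := ⟨_, rfl⟩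
  obtain ⟨k, hk⟩ : ∃ k : ℤ, k = ((n / p : ℕ) : ℤ) := ⟨_, rfl⟩
  rw [← hw, ← hk] at h
  rw [← hw, h]
  have e : u + v * (w + p * k) = u + v * w + p * (v * k) := by ring
  rw [e]
  exact (dvd_add_left (Dvd.intro _ rfl))

lemma one_root (u v : ℤ) (p : ℕ) (hp : p.Prime) (h : ¬ ((p : ℤ) ∣ v ∧ (p : ℤ) ∣ u)) (r r' : ℕ) (hrp : r < p)
    (hrp' : r' < p) (hr : (p : ℤ) ∣ u + v * r) (hr' : (p : ℤ) ∣ u + v * r') : r = r' := by
  have hpp : Prime (p : ℤ) := Nat.prime_iff_prime_int.1 hp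
  have h1 : (p : ℤ) ∣ v * ((r : ℤ) - r') := by
    have := dvd_sub hr hr'
    have e : u + v * (r : ℤ) - (u + v * (r' : ℤ)) = v * ((r : ℤ) - r') := by ring
    rwa [e] at this
  rcases hpp.dvd_or_dvd h1 with h2 | h2
  · exact absurd ⟨h2, (dvd_add_left (h2.mul_right _)).1 hr⟩ h
  · have h3 : (r : ℤ) ≡ r' [ZMOD p] := (Int.modEq_iff_dvd.2 (by rw [← neg_sub]; exact (dvd_neg).2 h2))
    have h4 : r ≡ r' [MOD p] := (Int.natCast_modEq_iff).1 h3
    exact Nat.ModEq.eq_of_lt_of_lt h4 hrp hrp'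

lemma two_dvd (z : ℤ) : (2 : ℤ) ∣ z ↔ (z : ZMod 2) = 0 := by
  have := ZMod.intCast_zmod_eq_zero_iff_dvd z 2
  rw [this]
  norm_num

set_option synthInstance.maxSize 4000 in
set_option maxRecDepth 100000 in
lemma par1 : ∀ g y0 D0 b d a' e' : ZMod 2, g * D0 = d - b * y0 → g * a' + b + g * e' + d = 0 → ¬ (a' = 0 ∧ e' = 0) →
    ¬ (g = 0 ∧ y0 = 0) → ¬ (g = 0 ∧ b = 0) →
    ∃ s : ZMod 2, ¬ (y0 + g * s = 0) ∧ ¬ (a' * e' = 0 ∧ D0 + -b * s = 0) ∧ ¬ (¬ a' * e' = 0 ∧ ¬ D0 + -b * s = 0) := by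
  decide

lemma par2 : ∀ D x z a' e' : ZMod 2, a' * x - e' * z = D → ¬ (a' = 0 ∧ e' = 0) → ¬ (a' * e' = 0 ∧ D = 0) →
    ¬ (¬ a' * e' = 0 ∧ ¬ D = 0) → ∃ t : ZMod 2, ¬ (x + e' * t = 0) ∧ ¬ (z + a' * t = 0) := by
  decide

open Classical in
/-- at most two classes, not all of them modulo two -/
lemma adm_of (Q Q1 Q2 : ℕ → ℕ → Prop) (hper : ∀ p n, Q p n ↔ Q p (n % p))
    (hQ : ∀ p : ℕ, p.Prime → 3 ≤ p → ∀ n, Q p n → Q1 p n ∨ Q2 p n)
    (h1 : ∀ p : ℕ, p.Prime → 3 ≤ p → ∀ r r' : ℕ, r < p → r' < p → Q1 p r → Q1 p r' → r = r')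
    (h2 : ∀ p : ℕ, p.Prime → 3 ≤ p → ∀ r r' : ℕ, r < p → r' < p → Q2 p r → Q2 p r' → r = r')
    (h3 : ∃ n, ¬ Q 2 n) : Adm Q 2 := by
  have hbig : ∀ p : ℕ, p.Prime → 3 ≤ p → nuB Q p ≤ 2 := by
    intro p hp hp3
    have e : nuB Q p = ((range p).filter (fun r => Q p r)).card := by
      unfold nuB
      congr
    rw [e]
    have h4 : (range p).filter (fun r => Q p r) ⊆ (range p).filter (fun r => Q1 p r) ∪ (range p).filter (fun r => Q2 p r) := by
      intro r hr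
      rw [mem_filter] at hr
      rw [mem_union, mem_filter, mem_filter]
      rcases hQ p hp hp3 r hr.2 with h | h
      · exact Or.inl ⟨hr.1, h⟩
      · exact Or.inr ⟨hr.1, h⟩
    have h5 := card_le_card h4
    have h6 := card_union_le ((range p).filter (fun r => Q1 p r)) ((range p).filter (fun r => Q2 p r))
    have h7 : ((range p).filter (fun r => Q1 p r)).card ≤ 1 := by
      rw [card_le_one]
      intro r hr r' hr'
      rw [mem_filter, mem_range] at hr hr'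
      exact h1 p hp hp3 r r' hr.1 hr'.1 hr.2 hr'.2
    have h8 : ((range p).filter (fun r => Q2 p r)).card ≤ 1 := by
      rw [card_le_one]
      intro r hr r' hr'
      rw [mem_filter, mem_range] at hr hr'
      exact h2 p hp hp3 r r' hr.1 hr'.1 hr.2 hr'.2
    omega
  refine ⟨⟨hper, fun p hp => ?_⟩, fun p hp => ?_⟩
  · rcases Nat.lt_or_ge p 3 with h | h
    · have h4 := nuB_le Q p
      omega
    · exact hbig p hp h
  · rcases Nat.lt_or_ge p 3 with h | h
    · have hp2 : p = 2 := by have := hp.two_le; omega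
      subst hp2
      obtain ⟨n, hn⟩ := h3
      have e : nuB Q 2 = ((range 2).filter (fun r => Q 2 r)).card := by
        unfold nuB
        congr
      rw [e]
      have h5 : (range 2).filter (fun r => Q 2 r) ⊂ range 2 := by
        rw [filter_ssubset]
        refine ⟨n % 2, mem_range.2 (Nat.mod_lt _ (by norm_num)), ?_⟩
        rwa [← hper]
      have h6 := card_lt_card h5
      rwa [card_range] at h6
    · have := hbig p hp h
      omega

/-- the linear equation in two unknowns -/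
lemma part (a e : ℕ) (ha : 0 < a) (he : 0 < e) (h : Nat.Coprime a e) (D : ℤ) :
    ∃ x z : ℕ, (a : ℤ) * x - e * z = D ∧ (x : ℤ) ≤ |D| + e ∧ (z : ℤ) ≤ |D| + a := by
  obtain ⟨u, v, huv⟩ := Nat.isCoprime_iff_coprime.2 h
  have ha' : (0 : ℤ) < a := by exact_mod_cast ha
  have he' : (0 : ℤ) < e := by exact_mod_cast he
  rcases le_or_gt D 0 with hD | hD
  · have h1 := Int.emod_add_mul_ediv (D * u) e
    have h2 := Int.emod_nonneg (D * u) he'.ne'
    have h3 := Int.emod_lt_of_pos (D * u) he'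
    set x := (D * u) % (e : ℤ) with hx
    set k := (D * u) / (e : ℤ) with hk
    set z := -(D * v) - a * k with hz
    have h4 : (a : ℤ) * x - e * z = D := by
      have : x = D * u - e * k := by linarith
      rw [this, hz]
      linear_combination D * huv
    have hz0 : 0 ≤ z := by
      by_contra hcon
      push Not at hcon
      have : (e : ℤ) * z < 0 := mul_neg_of_pos_of_neg he' hcon
      nlinarith
    have h5 : z ≤ |D| + a := by
      rw [abs_of_nonpos hD]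
      by_contra hcon
      push Not at hcon
      have h6 : (e : ℤ) * z ≥ e * (-D + a + 1) := mul_le_mul_of_nonneg_left (by omega) he'.le
      have h7 : (a : ℤ) * x ≤ a * (e - 1) := mul_le_mul_of_nonneg_left (by omega) ha'.le
      nlinarith
    refine ⟨x.toNat, z.toNat, ?_, ?_, ?_⟩
    · rw [Int.toNat_of_nonneg h2, Int.toNat_of_nonneg hz0]
      exact h4
    · rw [Int.toNat_of_nonneg h2]
      have := abs_nonneg D
      omega
    · rw [Int.toNat_of_nonneg hz0]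
      exact h5
  · have h1 := Int.emod_add_mul_ediv (-(D * v)) a
    have h2 := Int.emod_nonneg (-(D * v)) ha'.ne'
    have h3 := Int.emod_lt_of_pos (-(D * v)) ha'
    set z := (-(D * v)) % (a : ℤ) with hz
    set k := (-(D * v)) / (a : ℤ) with hk
    set x := D * u - e * k with hx
    have h4 : (a : ℤ) * x - e * z = D := by
      have : z = -(D * v) - a * k := by linarith
      rw [this, hx]
      linear_combination D * huv
    have hx0 : 0 ≤ x := by
      by_contra hcon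
      push Not at hcon
      have : (a : ℤ) * x < 0 := mul_neg_of_pos_of_neg ha' hcon
      nlinarith
    have h5 : x ≤ |D| + e := by
      rw [abs_of_pos hD]
      by_contra hcon
      push Not at hcon
      have h6 : (a : ℤ) * x ≥ a * (D + e + 1) := mul_le_mul_of_nonneg_left (by omega) ha'.le
      have h7 : (e : ℤ) * z ≤ e * (a - 1) := mul_le_mul_of_nonneg_left (by omega) he'.le
      nlinarith
    refine ⟨x.toNat, z.toNat, ?_, ?_, ?_⟩
    · rw [Int.toNat_of_nonneg h2, Int.toNat_of_nonneg hx0]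
      exact h4
    · rw [Int.toNat_of_nonneg hx0]
      exact h5
    · rw [Int.toNat_of_nonneg h2]
      have := abs_nonneg D
      omega

open Classical in
theorem core : ∃ K X₀ : ℕ, 1 ≤ K ∧ 3 ≤ X₀ ∧ ∀ y : ℕ, X₀ ≤ y → ∀ (a e : ℕ) (b d : ℤ), 0 < a → 0 < e →
    (∀ p : ℕ, p.Prime → ¬ (p ∣ a ∧ p ∣ e ∧ (p : ℤ) ∣ b)) →
    (∀ p : ℕ, p.Prime → ¬ (p ∣ a ∧ p ∣ e ∧ (p : ℤ) ∣ d)) →
    (∀ p : ℕ, p.Prime → ¬ (p ∣ a ∧ (p : ℤ) ∣ b ∧ (p : ℤ) ∣ d)) →
    (∀ p : ℕ, p.Prime → ¬ (p ∣ e ∧ (p : ℤ) ∣ b ∧ (p : ℤ) ∣ d)) →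
    Even ((a : ℤ) + b + e + d) → ∀ m : ℤ, (a : ℤ) ≤ m → (e : ℤ) ≤ m → |b| ≤ m →
    ∃ F : Finset (ℕ × ℕ × ℕ), 2 * y ≤ F.card ∧ ∀ t ∈ F, (a : ℤ) * t.1 + b * t.2.1 - e * t.2.2 = d ∧
      (∀ p ∈ pz y, ¬ p ∣ t.1 ∧ ¬ p ∣ t.2.1 ∧ ¬ p ∣ t.2.2) ∧ 2 ≤ t.1 ∧ 2 ≤ t.2.1 ∧ 2 ≤ t.2.2 ∧
      (t.1 : ℤ) ≤ |d| + 4 * m * (y : ℤ) ^ (2 * K) ∧ (t.2.1 : ℤ) ≤ |d| + 4 * m * (y : ℤ) ^ (2 * K) ∧
      (t.2.2 : ℤ) ≤ |d| + 4 * m * (y : ℤ) ^ (2 * K) := by
  obtain ⟨K, X₀, hK, hX₀, hint⟩ := interval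
  refine ⟨K, X₀, hK, hX₀, fun y hy a e b d ha he h1 h2 h3 h4 h5 m ham hem hbm => ?_⟩
  -- the greatest common divisor
  obtain ⟨g, hg⟩ : ∃ g : ℕ, g = Nat.gcd a e := ⟨_, rfl⟩
  have hg0 : 0 < g := by rw [hg]; exact Nat.gcd_pos_of_pos_left _ ha
  have hga : g ∣ a := by rw [hg]; exact Nat.gcd_dvd_left _ _
  have hge : g ∣ e := by rw [hg]; exact Nat.gcd_dvd_right _ _
  obtain ⟨a', ha'⟩ := hga
  obtain ⟨e', he'⟩ := hge
  have hcop : Nat.Coprime a' e' := by
    have h6 : Nat.gcd (g * a') (g * e') = g := by rw [← ha', ← he', hg]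
    rw [Nat.gcd_mul_left] at h6
    exact Nat.eq_of_mul_eq_mul_left hg0 (by rw [mul_one]; exact h6)
  have ha'0 : 0 < a' := Nat.pos_of_ne_zero (by rintro rfl; omega)
  have he'0 : 0 < e' := Nat.pos_of_ne_zero (by rintro rfl; omega)
  have hgb : IsCoprime (g : ℤ) b := by
    rw [Int.isCoprime_iff_gcd_eq_one]
    by_contra hcon
    obtain ⟨p, hp, hpd⟩ := Nat.exists_prime_and_dvd hcon
    have h6 : (p : ℤ) ∣ g := (Int.natCast_dvd_natCast.2 hpd).trans (Int.gcd_dvd_left _ _)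
    have h7 : (p : ℤ) ∣ b := (Int.natCast_dvd_natCast.2 hpd).trans (Int.gcd_dvd_right _ _)
    have h8 : p ∣ g := by exact_mod_cast h6
    exact h1 p hp ⟨ha' ▸ h8.mul_right _, he' ▸ h8.mul_right _, h7⟩
  obtain ⟨u, v, huv⟩ := hgb
  have hg0' : (0 : ℤ) < g := by exact_mod_cast hg0
  obtain ⟨y0, hy0⟩ : ∃ y0 : ℕ, (y0 : ℤ) = (d * v) % (g : ℤ) := ⟨((d * v) % (g : ℤ)).toNat,
    Int.toNat_of_nonneg (Int.emod_nonneg _ hg0'.ne')⟩
  have hy0g : (y0 : ℤ) < g := by rw [hy0]; exact Int.emod_lt_of_pos _ hg0'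
  obtain ⟨D0, hD0⟩ : ∃ D0 : ℤ, (g : ℤ) * D0 = d - b * y0 := by
    have h6 := Int.emod_add_mul_ediv (d * v) g
    refine ⟨d * u + b * ((d * v) / g), ?_⟩
    rw [hy0]
    have h7 : (d * v) % (g : ℤ) = d * v - g * ((d * v) / g) := by linarith
    rw [h7]
    linear_combination d * huv
  have hgy : ∀ p : ℕ, p.Prime → ¬ ((p : ℤ) ∣ g ∧ (p : ℤ) ∣ y0) := by
    rintro p hp ⟨h6, h7⟩
    have h8 : p ∣ g := by exact_mod_cast h6
    refine h2 p hp ⟨ha' ▸ h8.mul_right _, he' ▸ h8.mul_right _, ?_⟩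
    have h9 : d = g * D0 + b * y0 := by linarith
    rw [h9]
    exact dvd_add (h6.mul_right _) (h7.mul_left _)
  have hpr2 : Nat.Prime 2 := Nat.prime_two
  -- the first sieve
  obtain ⟨Q1, hQ1⟩ : ∃ Q1 : ℕ → ℕ → Prop, ∀ p s, Q1 p s ↔ ((p : ℤ) ∣ (y0 : ℤ) + g * s ∨
    ((p : ℤ) ∣ (a' : ℤ) * e' ∧ (p : ℤ) ∣ D0 + -b * s) ∨
    (p = 2 ∧ ¬ (p : ℤ) ∣ (a' : ℤ) * e' ∧ ¬ (p : ℤ) ∣ D0 + -b * s)) := ⟨_, fun _ _ => Iff.rfl⟩
  have hadm1 : Adm Q1 2 := by
    refine adm_of Q1 (fun p s => (p : ℤ) ∣ (y0 : ℤ) + g * s) (fun p s => (p : ℤ) ∣ (a' : ℤ) * e' ∧ (p : ℤ) ∣ D0 + -b * s)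
      ?_ ?_ ?_ ?_ ?_
    · intro p n
      rw [hQ1, hQ1, per_lin (y0 : ℤ) g p n, per_lin D0 (-b) p n]
    · intro p hp hp3 n hn
      rw [hQ1] at hn
      rcases hn with h6 | h6 | h6
      · exact Or.inl h6
      · exact Or.inr h6
      · omega
    · intro p hp _
      exact one_root _ _ p hp (hgy p hp)
    · intro p hp _ r r' hr hr' hq hq'
      · have h6 := hq.1
        refine one_root D0 (-b) p hp ?_ r r' hr hr' hq.2 hq'.2
        · rintro ⟨h7, h8⟩
          have hb : (p : ℤ) ∣ b := (dvd_neg).1 h7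
          have hd : (p : ℤ) ∣ d := by
            have h9 : d = g * D0 + b * y0 := by linarith
            rw [h9]
            exact dvd_add (h8.mul_left _) (hb.mul_right _)
          have h9 : p ∣ a' * e' := by exact_mod_cast h6
          rcases (hp.dvd_mul).1 h9 with h10 | h10
          · exact h3 p hp ⟨ha' ▸ h10.mul_left _, hb, hd⟩
          · exact h4 p hp ⟨he' ▸ h10.mul_left _, hb, hd⟩
    · have h6 := par1 (g : ZMod 2) (y0 : ZMod 2) (D0 : ZMod 2) (b : ZMod 2) (d : ZMod 2) (a' : ZMod 2) (e' : ZMod 2)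
        (by have := congrArg (fun z : ℤ => (z : ZMod 2)) hD0
            push_cast at this
            exact this)
        (by obtain ⟨w, hw⟩ := h5
            have := congrArg (fun z : ℤ => (z : ZMod 2)) hw
            rw [ha', he'] at this
            push_cast at this
            rw [this, CharTwo.add_self_eq_zero])
        (by rintro ⟨h7, h8⟩
            have h7' : ((a' : ℤ) : ZMod 2) = 0 := by push_cast; exact h7
            have h8' : ((e' : ℤ) : ZMod 2) = 0 := by push_cast; exact h8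
            rw [← two_dvd] at h7' h8'
            have h9 : 2 ∣ a' := by exact_mod_cast h7'
            have h10 : 2 ∣ e' := by exact_mod_cast h8'
            exact Nat.not_coprime_of_dvd_of_dvd (by norm_num) h9 h10 hcop)
        (by rintro ⟨h7, h8⟩
            have h7' : ((g : ℤ) : ZMod 2) = 0 := by push_cast; exact h7
            have h8' : ((y0 : ℤ) : ZMod 2) = 0 := by push_cast; exact h8
            rw [← two_dvd] at h7' h8'
            exact hgy 2 hpr2 ⟨by exact_mod_cast h7', by exact_mod_cast h8'⟩)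
        (by rintro ⟨h7, h8⟩
            have h7' : ((g : ℤ) : ZMod 2) = 0 := by push_cast; exact h7
            rw [← two_dvd] at h7' h8
            have h9 : 2 ∣ g := by exact_mod_cast h7'
            exact h1 2 hpr2 ⟨ha' ▸ h9.mul_right _, he' ▸ h9.mul_right _, by exact_mod_cast h8⟩)
      obtain ⟨s, hs1, hs2, hs3⟩ := h6
      have hsv : ((s.val : ℕ) : ZMod 2) = s := ZMod.natCast_zmod_val s
      have t1 : ((2 : ℕ) : ℤ) ∣ (y0 : ℤ) + g * (s.val : ℕ) ↔ (y0 : ZMod 2) + g * s = 0 := by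
        have := two_dvd ((y0 : ℤ) + g * (s.val : ℕ))
        push_cast at this
        rw [hsv] at this
        exact this
      have t2 : ((2 : ℕ) : ℤ) ∣ D0 + -b * (s.val : ℕ) ↔ (D0 : ZMod 2) + -b * s = 0 := by
        have := two_dvd (D0 + -b * (s.val : ℕ))
        push_cast at this
        rw [hsv] at this
        exact this
      have t3 : ((2 : ℕ) : ℤ) ∣ (a' : ℤ) * e' ↔ (a' : ZMod 2) * e' = 0 := by
        have := two_dvd ((a' : ℤ) * e')
        push_cast at this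
        exact this
      refine ⟨s.val, ?_⟩
      rw [hQ1, t1, t2, t3]
      rintro (h7 | h7 | h7)
      · exact hs1 h7
      · exact hs2 h7
      · exact hs3 h7.2
  have hs := hint y hy Q1 hadm1 2
  have hy3 : 3 ≤ y := hX₀.trans hy
  have hne : ((Ico 2 (2 + y ^ (2 * K))).filter (fun n => ∀ p ∈ pz y, ¬ Q1 p n)).Nonempty := by
    rw [← card_pos]
    omega
  obtain ⟨s, hs⟩ := hne
  rw [mem_filter, mem_Ico] at hs
  obtain ⟨⟨hs2, hsS⟩, hsQ⟩ := hs
  set D : ℤ := D0 + -b * s with hD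
  obtain ⟨x, z, hxz, hx, hz⟩ := part a' e' ha'0 he'0 hcop D
  -- the second sieve
  obtain ⟨Q2, hQ2⟩ : ∃ Q2 : ℕ → ℕ → Prop, ∀ p t, Q2 p t ↔ (p ≤ y ∧ ((p : ℤ) ∣ (x : ℤ) + e' * t ∨
    (p : ℤ) ∣ (z : ℤ) + a' * t)) := ⟨_, fun _ _ => Iff.rfl⟩
  have hgood : ∀ p : ℕ, p.Prime → p ≤ y → ¬ ((p : ℤ) ∣ (a' : ℤ) * e' ∧ (p : ℤ) ∣ D) := by
    intro p hp hpy h6
    exact hsQ p (mem_pz.2 ⟨hpy, hp⟩) ((hQ1 _ _).2 (Or.inr (Or.inl h6)))
  have hadm2 : Adm Q2 2 := by
    refine adm_of Q2 (fun p t => p ≤ y ∧ (p : ℤ) ∣ (x : ℤ) + e' * t) (fun p t => p ≤ y ∧ (p : ℤ) ∣ (z : ℤ) + a' * t)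
      ?_ ?_ ?_ ?_ ?_
    · intro p n
      rw [hQ2, hQ2, per_lin (x : ℤ) e' p n, per_lin (z : ℤ) a' p n]
    · intro p hp hp3 n hn
      rw [hQ2] at hn
      rcases hn with ⟨h6, h7 | h7⟩
      · exact Or.inl ⟨h6, h7⟩
      · exact Or.inr ⟨h6, h7⟩
    · intro p hp _ r r' hr hr' hq hq'
      refine one_root (x : ℤ) e' p hp ?_ r r' hr hr' hq.2 hq'.2
      rintro ⟨h7, h8⟩
      refine hgood p hp hq.1 ⟨h7.mul_left _, ?_⟩
      rw [← hxz]
      exact dvd_sub (h8.mul_left _) (h7.mul_right _)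
    · intro p hp _ r r' hr hr' hq hq'
      refine one_root (z : ℤ) a' p hp ?_ r r' hr hr' hq.2 hq'.2
      rintro ⟨h7, h8⟩
      refine hgood p hp hq.1 ⟨h7.mul_right _, ?_⟩
      rw [← hxz]
      exact dvd_sub (h7.mul_right _) (h8.mul_left _)
    · have h2y : 2 ∈ pz y := mem_pz.2 ⟨by omega, hpr2⟩
      have h6 := par2 (D : ZMod 2) (x : ZMod 2) (z : ZMod 2) (a' : ZMod 2) (e' : ZMod 2)
        (by have := congrArg (fun z : ℤ => (z : ZMod 2)) hxz
            push_cast at this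
            exact this)
        (by rintro ⟨h7, h8⟩
            have h7' : ((a' : ℤ) : ZMod 2) = 0 := by push_cast; exact h7
            have h8' : ((e' : ℤ) : ZMod 2) = 0 := by push_cast; exact h8
            rw [← two_dvd] at h7' h8'
            have h9 : 2 ∣ a' := by exact_mod_cast h7'
            have h10 : 2 ∣ e' := by exact_mod_cast h8'
            exact Nat.not_coprime_of_dvd_of_dvd (by norm_num) h9 h10 hcop)
        (by rintro ⟨h7, h8⟩
            refine hgood 2 hpr2 (by omega) ⟨?_, ?_⟩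
            · have := two_dvd ((a' : ℤ) * e')
              push_cast at this ⊢
              exact this.2 h7
            · exact (two_dvd D).2 h8)
        (by rintro ⟨h7, h8⟩
            refine hsQ 2 h2y ((hQ1 _ _).2 (Or.inr (Or.inr ⟨rfl, ?_, ?_⟩)))
            · intro h9
              apply h7
              have := two_dvd ((a' : ℤ) * e')
              push_cast at this h9
              exact this.1 h9
            · intro h9
              exact h8 ((two_dvd D).1 h9))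
      obtain ⟨t, ht1, ht2⟩ := h6
      have htv : ((t.val : ℕ) : ZMod 2) = t := ZMod.natCast_zmod_val t
      refine ⟨t.val, ?_⟩
      rw [hQ2]
      rintro ⟨_, h7 | h7⟩
      · apply ht1
        have := two_dvd ((x : ℤ) + e' * (t.val : ℕ))
        push_cast at this h7
        rw [htv] at this
        exact this.1 h7
      · apply ht2
        have := two_dvd ((z : ℤ) + a' * (t.val : ℕ))
        push_cast at this h7
        rw [htv] at this
        exact this.1 h7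
  have ht := hint y hy Q2 hadm2 2
  set T := (Ico 2 (2 + y ^ (2 * K))).filter (fun n => ∀ p ∈ pz y, ¬ Q2 p n) with hT
  have hS2 : (2 : ℤ) ≤ (y : ℤ) ^ (2 * K) := by
    have h6 : y ≤ y ^ (2 * K) := Nat.le_self_pow (by omega) y
    have h7 : 2 ≤ y ^ (2 * K) := by omega
    exact_mod_cast h7
  have hm1 : 1 ≤ m := by
    have : (1 : ℤ) ≤ a := by exact_mod_cast ha
    linarith
  have hsS' : (s : ℤ) < 2 + (y : ℤ) ^ (2 * K) := by exact_mod_cast hsS
  have hs2' : (2 : ℤ) ≤ s := by exact_mod_cast hs2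
  have ha'1 : (1 : ℤ) ≤ a' := by exact_mod_cast ha'0
  have he'1 : (1 : ℤ) ≤ e' := by exact_mod_cast he'0
  have hg1 : (1 : ℤ) ≤ g := by exact_mod_cast hg0
  have haz : (a : ℤ) = g * a' := by rw [ha']; push_cast; ring
  have hez : (e : ℤ) = g * e' := by rw [he']; push_cast; ring
  have ha'm : (a' : ℤ) ≤ m := by nlinarith
  have he'm : (e' : ℤ) ≤ m := by nlinarith
  have hgm : (g : ℤ) ≤ m := by nlinarith
  have hDb : |D| ≤ |d| + m * (1 + s) := by
    have h6 : (g : ℤ) * D = d - b * (y0 + g * s) := by rw [hD]; linear_combination hD0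
    have h7 : (g : ℤ) * |D| ≤ |d| + |b| * (y0 + g * s) := by
      have h8 : (g : ℤ) * |D| = |d - b * (y0 + g * s)| := by
        rw [← h6, abs_mul, abs_of_pos hg0']
      rw [h8]
      refine (abs_sub _ _).trans ?_
      rw [abs_mul, abs_of_nonneg (show (0 : ℤ) ≤ y0 + g * s by positivity)]
    have h8 : |b| * (y0 + g * s) ≤ m * (g + g * s) := by
      apply mul_le_mul hbm (by linarith) (by positivity) (by linarith)
    have h9 : (g : ℤ) * |D| ≤ g * (|d| + m * (1 + s)) := by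
      calc (g : ℤ) * |D| ≤ |d| + m * (g + g * s) := h7.trans (by linarith)
        _ ≤ g * |d| + m * (g + g * s) := by
            have : |d| ≤ g * |d| := le_mul_of_one_le_left (abs_nonneg d) hg1
            linarith
        _ = _ := by ring
    exact le_of_mul_le_mul_left h9 hg0'
  have hDb' : |D| ≤ |d| + m * (2 + (y : ℤ) ^ (2 * K)) := by
    refine hDb.trans ?_
    have : m * (1 + (s : ℤ)) ≤ m * (2 + (y : ℤ) ^ (2 * K)) := mul_le_mul_of_nonneg_left (by linarith) (by linarith)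
    linarith
  have hfin : m * (2 + (y : ℤ) ^ (2 * K)) + m * (2 + (y : ℤ) ^ (2 * K)) ≤ 4 * m * (y : ℤ) ^ (2 * K) := by
    nlinarith
  refine ⟨T.image (fun t => (x + e' * t, y0 + g * s, z + a' * t)), ?_, ?_⟩
  · rw [card_image_of_injective]
    · exact ht
    · intro t t' htt
      have h6 : x + e' * t = x + e' * t' := congrArg Prod.fst htt
      exact Nat.eq_of_mul_eq_mul_left he'0 (by omega)
  · intro q hq
    rw [mem_image] at hq
    obtain ⟨t, htT, rfl⟩ := hq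
    rw [hT, mem_filter, mem_Ico] at htT
    obtain ⟨⟨ht2, htS⟩, htQ⟩ := htT
    have htS' : (t : ℤ) < 2 + (y : ℤ) ^ (2 * K) := by exact_mod_cast htS
    have ht2' : (2 : ℤ) ≤ t := by exact_mod_cast ht2
    dsimp only
    push_cast
    refine ⟨?_, ?_, ?_, ?_, ?_, ?_, ?_, ?_⟩
    · rw [haz, hez]
      have h6 : (a' : ℤ) * x - e' * z = D0 + -b * s := hxz
      linear_combination g * h6 + hD0
    · intro p hp
      have hp' := mem_pz.1 hp
      refine ⟨fun h6 => htQ p hp ((hQ2 _ _).2 ⟨hp'.1, Or.inl ?_⟩), fun h6 => hsQ p hp ((hQ1 _ _).2 (Or.inl ?_)),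
        fun h6 => htQ p hp ((hQ2 _ _).2 ⟨hp'.1, Or.inr ?_⟩)⟩
      · exact_mod_cast h6
      · exact_mod_cast h6
      · exact_mod_cast h6
    · nlinarith
    · nlinarith
    · nlinarith
    · have h6 : (e' : ℤ) * t ≤ m * (1 + (y : ℤ) ^ (2 * K)) := mul_le_mul he'm (by omega) (by positivity) (by linarith)
      linarith
    · have h6 : (g : ℤ) * s ≤ m * (1 + (y : ℤ) ^ (2 * K)) := mul_le_mul hgm (by omega) (by positivity) (by linarith)
      have := abs_nonneg d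
      nlinarith
    · have h6 : (a' : ℤ) * t ≤ m * (1 + (y : ℤ) ^ (2 * K)) := mul_le_mul ha'm (by omega) (by positivity) (by linarith)
      linarith

end Pool.Agent.X55.Baker
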