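import Pool.Agent.X55.Baker.Sieve
import Pool.Agent.X55.Art.Main
import Pool.Agent.Helper923.PNT

set_option autoImplicit false

/-! # Primes in a progression which avoid one residue class for each of few primes -/

namespace Pool.Agent.X55.Baker

open Finset Filter Pool.Agent.H373R2.T7 Pool.Agent.X55.Fam
open Pool.Agent.H442R2.KF (piN piAP Er)

lemma tot_prod (M : ℕ) (T : Finset ℕ) (hT : ∀ p ∈ T, p.Prime ∧ ¬ p ∣ M) :
    (Nat.totient (M * ∏ p ∈ T, p) : ℝ) = (Nat.totient M : ℝ) * ∏ p ∈ T, ((p : ℝ) - 1) := by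
  classical
  induction T using Finset.induction_on with
  | empty => simp
  | insert q T hq ih =>
    rw [prod_insert hq, prod_insert hq]
    have h1 := hT q (mem_insert_self _ _)
    have h2 := ih fun p hp => hT p (mem_insert_of_mem hp)
    have hc : Nat.Coprime q (M * ∏ p ∈ T, p) := by
      apply Nat.Coprime.mul_right
      · exact (Nat.Prime.coprime_iff_not_dvd h1.1).2 h1.2
      · apply Nat.Coprime.prod_right
        intro p hp
        rw [Nat.coprime_primes h1.1 (hT p (mem_insert_of_mem hp)).1]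
        rintro rfl
        exact hq hp
    have e : M * (q * ∏ p ∈ T, p) = q * (M * ∏ p ∈ T, p) := by ring
    rw [e, Nat.totient_mul hc, Nat.totient_prime h1.1]
    push_cast [h1.1.one_le]
    rw [h2]
    ring

lemma cls (M r : ℕ) (T : Finset ℕ) (hT : ∀ p ∈ T, p.Prime ∧ ¬ p ∣ M) (c : ℕ → ℕ) :
    ∃ a : ℕ, ∀ n : ℕ, n ≡ a [MOD M * ∏ p ∈ T, p] ↔ n ≡ r [MOD M] ∧ ∀ p ∈ T, n ≡ c p [MOD p] := by
  classical
  induction T using Finset.induction_on with
  | empty => exact ⟨r, fun n => by simp⟩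
  | insert q T hq ih =>
    obtain ⟨a, ha⟩ := ih fun p hp => hT p (mem_insert_of_mem hp)
    have h1 := hT q (mem_insert_self _ _)
    have hc : Nat.Coprime (M * ∏ p ∈ T, p) q := by
      apply Nat.Coprime.symm
      apply Nat.Coprime.mul_right
      · exact (Nat.Prime.coprime_iff_not_dvd h1.1).2 h1.2
      · apply Nat.Coprime.prod_right
        intro p hp
        rw [Nat.coprime_primes h1.1 (hT p (mem_insert_of_mem hp)).1]
        rintro rfl
        exact hq hp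
    obtain ⟨k, hk1, hk2⟩ := Nat.chineseRemainder hc a (c q)
    refine ⟨k, fun n => ?_⟩
    rw [prod_insert hq]
    have e : M * (q * ∏ p ∈ T, p) = (M * ∏ p ∈ T, p) * q := by ring
    rw [e, ← Nat.modEq_and_modEq_iff_modEq_mul hc]
    constructor
    · rintro ⟨h3, h4⟩
      have h5 := (ha n).1 (h3.trans hk1)
      refine ⟨h5.1, fun p hp => ?_⟩
      rcases mem_insert.1 hp with rfl | hp
      · exact h4.trans hk2
      · exact h5.2 p hp
    · rintro ⟨h3, h4⟩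
      refine ⟨((ha n).2 ⟨h3, fun p hp => h4 p (mem_insert_of_mem hp)⟩).trans hk1.symm,
        (h4 q (mem_insert_self _ _)).trans hk2.symm⟩

/-- the eventual inequalities -/
lemma evs (A E : ℕ) (K0 C0 Cs c1 : ℝ) (hK0 : 0 < K0) (hc1 : 0 < c1) : ∀ᶠ X : ℝ in atTop,
    8 ≤ Real.log X ∧ K0 * (Real.log X ^ A * (Real.log X ^ (A + 4)) ^ E) ≤ X ^ (1 / 4 : ℝ) ∧
    ((A + 4 : ℝ) * Real.log (Real.log X)) ^ 2 ≤ Real.log X ^ (1 / 2 : ℝ) ∧
    Real.sqrt X + C0 * Real.log X ≤ X / Real.log X ^ (A + 2) ∧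
    Cs + C0 + 1 < c1 / (4 * K0) * Real.log X ^ (1 / 2 : ℝ) ∧
    (Real.log X ^ (A + 4)) ^ 2 < X := by
  have hlog : Tendsto Real.log atTop atTop := Real.tendsto_log_atTop
  have a1 : ∀ᶠ X : ℝ in atTop, 8 ≤ Real.log X := hlog.eventually_ge_atTop 8
  have pol : ∀ (n : ℕ) (s C : ℝ), 0 < s → ∀ᶠ X : ℝ in atTop, C * Real.log X ^ n ≤ X ^ s := by
    intro n s C hs
    have h1 := (isLittleO_log_rpow_rpow_atTop (n : ℝ) hs).def (show (0 : ℝ) < 1 / (|C| + 1) by positivity)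
    filter_upwards [h1, eventually_ge_atTop (1 : ℝ)] with X hX hX1
    have hXs : 0 ≤ X ^ s := Real.rpow_nonneg (by linarith) _
    rw [Real.rpow_natCast, Real.norm_eq_abs, Real.norm_eq_abs, abs_of_nonneg (pow_nonneg (Real.log_nonneg hX1) _),
      abs_of_nonneg hXs] at hX
    have h2 : (|C| + 1) * Real.log X ^ n ≤ X ^ s := by
      have h3 : (0 : ℝ) < |C| + 1 := by positivity
      calc (|C| + 1) * Real.log X ^ n ≤ (|C| + 1) * (1 / (|C| + 1) * X ^ s) := by gcongr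
        _ = X ^ s := by field_simp
    have h4 : 0 ≤ Real.log X ^ n := pow_nonneg (Real.log_nonneg hX1) _
    have h5 : C ≤ |C| + 1 := by linarith [le_abs_self C]
    nlinarith
  have a2 := pol (A + (A + 4) * E) (1 / 4) K0 (by norm_num)
  have a3 : ∀ᶠ X : ℝ in atTop, ((A + 4 : ℝ) * Real.log (Real.log X)) ^ 2 ≤ Real.log X ^ (1 / 2 : ℝ) := by
    have h1 := hlog.eventually (pol 2 (1 / 2) ((A + 4 : ℝ) ^ 2) (by norm_num))
    filter_upwards [h1] with X hX
    rw [mul_pow]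
    exact hX
  have a4 := pol (A + 2) (1 / 2) 2 (by norm_num)
  have a5 := pol (A + 3) 1 (2 * C0) one_pos
  have a6 : ∀ᶠ X : ℝ in atTop, Cs + C0 + 1 < c1 / (4 * K0) * Real.log X ^ (1 / 2 : ℝ) := by
    have h1 : Tendsto (fun X : ℝ => c1 / (4 * K0) * Real.log X ^ (1 / 2 : ℝ)) atTop atTop :=
      Tendsto.const_mul_atTop (by positivity) ((tendsto_rpow_atTop (by norm_num)).comp hlog)
    exact h1.eventually_gt_atTop _
  have a7 := pol ((A + 4) * 2) (1 / 2) 1 (by norm_num)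
  filter_upwards [a1, a2, a3, a4, a5, a6, a7, eventually_gt_atTop (1 : ℝ)] with X h1 h2 h3 h4 h5 h6 h7 h8
  have hL : 0 < Real.log X := by linarith
  refine ⟨h1, ?_, h3, ?_, h6, ?_⟩
  · rw [← pow_mul, ← pow_add]
    exact h2
  · have hsq : Real.sqrt X = X ^ (1 / 2 : ℝ) := Real.sqrt_eq_rpow X
    have hXX : X ^ (1 / 2 : ℝ) * X ^ (1 / 2 : ℝ) = X := by
      rw [← Real.rpow_add (by linarith)]
      norm_num
    rw [le_div_iff₀ (by positivity), add_mul]
    have e1 : Real.sqrt X * Real.log X ^ (A + 2) ≤ X / 2 := by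
      rw [hsq]
      have : Real.log X ^ (A + 2) ≤ X ^ (1 / 2 : ℝ) / 2 := by linarith
      calc X ^ (1 / 2 : ℝ) * Real.log X ^ (A + 2) ≤ X ^ (1 / 2 : ℝ) * (X ^ (1 / 2 : ℝ) / 2) := by gcongr
        _ = X ^ (1 / 2 : ℝ) * X ^ (1 / 2 : ℝ) / 2 := by ring
        _ = X / 2 := by rw [hXX]
    have e2 : C0 * Real.log X * Real.log X ^ (A + 2) ≤ X / 2 := by
      rw [Real.rpow_one] at h5
      have : C0 * Real.log X * Real.log X ^ (A + 2) = (2 * C0 * Real.log X ^ (A + 3)) / 2 := by ring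
      rw [this]
      linarith
    linarith
  · rw [← pow_mul]
    have h9 : Real.log X ^ ((A + 4) * 2) ≤ X ^ (1 / 2 : ℝ) := by linarith
    refine h9.trans_lt ?_
    calc X ^ (1 / 2 : ℝ) < X ^ (1 : ℝ) := Real.rpow_lt_rpow_of_exponent_lt h8 (by norm_num)
      _ = X := Real.rpow_one X

open Classical in
theorem prime_avoid (C0 : ℝ) (hC0 : 0 ≤ C0) (A : ℕ) : ∃ S₀ : ℕ, ∀ S : ℕ, S₀ ≤ S → ∀ M r : ℕ, 1 ≤ M →
    (M : ℝ) ≤ Real.log S ^ A → Nat.Coprime r M → ∀ (PP : Finset ℕ) (c : ℕ → ℕ),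
    (∀ p ∈ PP, p.Prime ∧ 3 ≤ p ∧ ¬ p ∣ M) → (PP.card : ℝ) ≤ C0 * Real.log S →
    ∃ q : ℕ, q.Prime ∧ S < q ^ 2 ∧ q ≤ S ∧ q ≡ r [MOD M] ∧ ∀ p ∈ PP, ¬ q ≡ c p [MOD p] := by
  obtain ⟨F, hF, hFL⟩ := Pool.Agent.H20R2.fLem 1
  obtain ⟨z0, hz0⟩ : ∃ z0 : ℕ, z0 = F + 4 := ⟨_, rfl⟩
  obtain ⟨K0, hK0⟩ : ∃ K0 : ℕ, K0 = ∏ p ∈ pz z0, p := ⟨_, rfl⟩
  have hK01 : 1 ≤ K0 := by rw [hK0]; exact Nat.pos_of_ne_zero (prod_ne_zero_iff.2 fun p hp => (mem_pz.1 hp).2.ne_zero)
  obtain ⟨E, hE⟩ : ∃ E : ℕ, E = 2 * (F * F) := ⟨_, rfl⟩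
  obtain ⟨U, hU⟩ : ∃ U : ℕ, U = (A + 4) * (E + 1) + (A + 2) := ⟨_, rfl⟩
  obtain ⟨Cs, hCs, hsw⟩ := Pool.Agent.X55.Art.sw U
  obtain ⟨c1, C1, hc1, hC1, hV⟩ := numax_bounds 2 (by norm_num)
  have hK0r : (0 : ℝ) < K0 := by exact_mod_cast hK01
  have ev := evs A E K0 C0 Cs c1 hK0r hc1
  have evpi : ∀ᶠ X : ℝ in atTop, (1 / 2 : ℝ) < (Nat.primeCounting ⌊X⌋₊ : ℝ) * Real.log X / X :=
    Pool.Agent.Helper923.PNT.pi_tendsto.eventually (lt_mem_nhds (by norm_num))
  obtain ⟨X1, hX1⟩ := eventually_atTop.mp (ev.and evpi)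
  refine ⟨max ⌈X1⌉₊ 3, fun S hS M r hM hML hrM PP c hPP hcard => ?_⟩
  have hSX : X1 ≤ (S : ℝ) := (Nat.le_ceil _).trans (by exact_mod_cast (le_max_left _ _).trans hS)
  have hS3 : 3 ≤ S := (le_max_right _ _).trans hS
  obtain ⟨⟨v1, v2, v3, v4, v5, v6⟩, vpi⟩ := hX1 _ hSX
  rw [Nat.floor_natCast] at vpi
  obtain ⟨L, hL⟩ : ∃ L : ℝ, L = Real.log S := ⟨_, rfl⟩
  rw [← hL] at v1 v2 v3 v4 v5 v6 vpi hML hcard
  have hL0 : 0 < L := by linarith
  have hSr : (3 : ℝ) ≤ S := by exact_mod_cast hS3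
  have hS0 : (0 : ℝ) < S := by linarith
  obtain ⟨w, hw⟩ : ∃ w : ℕ, w = ⌈L ^ (A + 3)⌉₊ := ⟨_, rfl⟩
  have hwL : L ^ (A + 3) ≤ w := by rw [hw]; exact Nat.le_ceil _
  have hLA : (1 : ℝ) ≤ L ^ (A + 3) := one_le_pow₀ (by linarith)
  have hwU : (w : ℝ) ≤ L ^ (A + 4) := by
    have h1 : (w : ℝ) < L ^ (A + 3) + 1 := by rw [hw]; exact Nat.ceil_lt_add_one (by positivity)
    calc (w : ℝ) ≤ L ^ (A + 3) + 1 := h1.le
      _ ≤ L ^ (A + 3) * L := by nlinarith
      _ = L ^ (A + 4) := by ring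
  have hw8 : 8 ≤ w := by
    have h1 : (8 : ℝ) ≤ w := by
      calc (8 : ℝ) ≤ L := v1
        _ = L ^ 1 := (pow_one L).symm
        _ ≤ L ^ (A + 3) := pow_le_pow_right₀ (by linarith) (by omega)
        _ ≤ w := hwL
    exact_mod_cast h1
  by_contra hcon
  push Not at hcon
  -- the small primes
  obtain ⟨P0, hP0⟩ : ∃ P0 : Finset ℕ, P0 = PP.filter (fun p => p ≤ z0) := ⟨_, rfl⟩
  obtain ⟨P, hP⟩ : ∃ P : Finset ℕ, P = PP.filter (fun p => z0 < p ∧ p ≤ w ∧ ¬ p ∣ c p) := ⟨_, rfl⟩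
  have hP0m : ∀ p ∈ P0, p.Prime ∧ 3 ≤ p ∧ ¬ p ∣ M ∧ p ≤ z0 := fun p hp => by
    rw [hP0, mem_filter] at hp
    exact ⟨(hPP p hp.1).1, (hPP p hp.1).2.1, (hPP p hp.1).2.2, hp.2⟩
  have hPm : ∀ p ∈ P, p.Prime ∧ 3 ≤ p ∧ ¬ p ∣ M ∧ z0 < p ∧ p ≤ w ∧ ¬ p ∣ c p := fun p hp => by
    rw [hP, mem_filter] at hp
    exact ⟨(hPP p hp.1).1, (hPP p hp.1).2.1, (hPP p hp.1).2.2, hp.2⟩
  obtain ⟨c2, hc2⟩ : ∃ c2 : ℕ → ℕ, ∀ p, c2 p = if p ≤ z0 then (if c p ≡ 1 [MOD p] then 2 else 1) else c p := ⟨_, fun _ => rfl⟩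
  have hc2P0 : ∀ p ∈ P0, ¬ c2 p ≡ c p [MOD p] ∧ Nat.Coprime (c2 p) p := by
    intro p hp
    obtain ⟨hpp, hp3, -, hpz⟩ := hP0m p hp
    rw [hc2, if_pos hpz]
    split_ifs with h1
    · refine ⟨fun h2 => ?_, ?_⟩
      · have h3 : 2 ≡ 1 [MOD p] := h2.trans h1
        have := Nat.ModEq.eq_of_lt_of_lt h3 (by omega) (by omega)
        omega
      · rw [Nat.coprime_primes Nat.prime_two hpp]
        omega
    · exact ⟨fun h2 => h1 h2.symm, Nat.coprime_one_left _⟩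
  have hc2P : ∀ p ∈ P, c2 p = c p := by
    intro p hp
    obtain ⟨-, -, -, h1, -⟩ := hPm p hp
    rw [hc2, if_neg (by omega)]
  have hdisj : ∀ T : Finset ℕ, T ⊆ P → Disjoint P0 T := by
    intro T hT
    rw [disjoint_left]
    intro p hp hp'
    have h1 := (hP0m p hp).2.2.2
    have h2 := (hPm p (hT hp')).2.2.2.1
    omega
  obtain ⟨Ω, hΩ⟩ : ∃ Ω : Finset ℕ, Ω = (Icc 1 S).filter (fun q => q.Prime ∧ q ≡ r [MOD M] ∧ ∀ p ∈ P0, q ≡ c2 p [MOD p]) :=
    ⟨_, rfl⟩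
  obtain ⟨AA, hAA⟩ : ∃ AA : ℝ, AA = (piN S : ℝ) / ((Nat.totient M : ℝ) * ∏ p ∈ P0, ((p : ℝ) - 1)) := ⟨_, rfl⟩
  have hpr1 : ∀ p : ℕ, p.Prime → (1 : ℝ) ≤ (p : ℝ) - 1 := fun p hp => by
    have : (2 : ℝ) ≤ p := by exact_mod_cast hp.two_le
    linarith
  have hP0prod : (0 : ℝ) < ∏ p ∈ P0, ((p : ℝ) - 1) := prod_pos fun p hp => by
    have := hpr1 p (hP0m p hp).1
    linarith
  have hMt : (0 : ℝ) < Nat.totient M := by exact_mod_cast Nat.totient_pos.2 (by omega)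
  have hAA0 : 0 ≤ AA := by rw [hAA]; positivity
  have hP0K : ∏ p ∈ P0, p ≤ K0 := by
    rw [hK0]
    apply Nat.le_of_dvd (by rw [← hK0]; exact hK01)
    apply prod_dvd_prod_of_subset
    intro p hp
    obtain ⟨h1, -, -, h2⟩ := hP0m p hp
    exact mem_pz.2 ⟨h2, h1⟩
  obtain ⟨J, hJ⟩ : ∃ J : ℕ, J = JJ w := ⟨_, rfl⟩
  have hJ1 : w < 2 ^ 2 ^ J := by rw [hJ]; exact JJ_lt w
  have hJ2 : 2 ^ 2 ^ J ≤ w ^ 2 := by rw [hJ]; exact JJ_le w (by omega)
  have hDw : (2 ^ 2 ^ J) ^ (F * F) ≤ w ^ E := by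
    calc (2 ^ 2 ^ J) ^ (F * F) ≤ (w ^ 2) ^ (F * F) := Nat.pow_le_pow_left hJ2 _
      _ = w ^ E := by rw [← pow_mul, hE]
  have key := hFL F J z0 P (fun p => 1 / ((p : ℝ) - 1)) le_rfl (by omega)
    (fun p hp => ⟨(hPm p hp).1, (hPm p hp).2.2.2.1, (hPm p hp).2.2.2.2.1.trans hJ1.le⟩)
    (fun p hp => by
      have := hpr1 p (hPm p hp).1
      refine ⟨by positivity, ?_⟩
      rw [Nat.cast_one])
    Ω (fun _ => (1 : ℝ)) (fun p q => q ≡ c p [MOD p]) AA (fun _ => Cs * (S / L ^ U)) (fun _ _ => zero_le_one) hAA0 (by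
      intro T hT hTD
      have hT' : ∀ p ∈ P0 ∪ T, p.Prime ∧ ¬ p ∣ M := fun p hp => by
        rcases mem_union.1 hp with h | h
        · exact ⟨(hP0m p h).1, (hP0m p h).2.2.1⟩
        · exact ⟨(hPm p (hT h)).1, (hPm p (hT h)).2.2.1⟩
      obtain ⟨a, ha⟩ := cls M r (P0 ∪ T) hT' c2
      have haa := (ha a).1 (Nat.ModEq.refl a)
      have hcop : Nat.Coprime a (M * ∏ p ∈ P0 ∪ T, p) := by
        apply Nat.Coprime.mul_right
        · unfold Nat.Coprime
          rw [haa.1.gcd_eq]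
          exact hrM
        · apply Nat.Coprime.prod_right
          intro p hp
          unfold Nat.Coprime
          rw [(haa.2 p hp).gcd_eq]
          rcases mem_union.1 hp with h | h
          · exact (hc2P0 p h).2
          · rw [hc2P p (hT h)]
            exact Nat.Coprime.symm ((Nat.Prime.coprime_iff_not_dvd (hPm p (hT h)).1).2 (hPm p (hT h)).2.2.2.2.2)
      have hd1 : 1 ≤ M * ∏ p ∈ P0 ∪ T, p := Nat.mul_pos hM (prod_pos fun p hp => (hT' p hp).1.pos)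
      have hdle : ((M * ∏ p ∈ P0 ∪ T, p : ℕ) : ℝ) ≤ (S : ℝ) ^ (1 / 4 : ℝ) := by
        refine le_trans ?_ v2
        rw [prod_union (hdisj T hT)]
        have h1 : ((∏ p ∈ P0, p : ℕ) : ℝ) ≤ K0 := by exact_mod_cast hP0K
        have h2 : ((∏ p ∈ T, p : ℕ) : ℝ) ≤ (L ^ (A + 4)) ^ E := by
          have h3 : ∏ p ∈ T, p ≤ w ^ E := hTD.trans hDw
          have h4 : ((∏ p ∈ T, p : ℕ) : ℝ) ≤ (w : ℝ) ^ E := by exact_mod_cast h3
          exact h4.trans (by gcongr)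
        rw [Nat.cast_mul, Nat.cast_mul]
        calc (M : ℝ) * (((∏ p ∈ P0, p : ℕ) : ℝ) * ((∏ p ∈ T, p : ℕ) : ℝ)) ≤ L ^ A * (K0 * (L ^ (A + 4)) ^ E) := by
              gcongr
          _ = _ := by ring
      have h1 := hsw S hS3 _ a hd1 hdle hcop
      rw [← hL] at h1
      refine le_trans (le_of_eq ?_) h1
      unfold Er
      rw [tot_prod M (P0 ∪ T) hT']
      congr 1
      congr 1
      · rw [sum_const, nsmul_eq_mul, mul_one]
        congr 1
        unfold piAP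
        rw [hΩ, filter_filter]
        congr 1
        ext q
        simp only [mem_filter]
        rw [ha q]
        refine and_congr_right fun _ => ?_
        constructor
        · rintro ⟨⟨h2, h3, h4⟩, h5⟩
          refine ⟨h2, h3, fun p hp => ?_⟩
          rcases mem_union.1 hp with h | h
          · exact h4 p h
          · rw [hc2P p (hT h)]
            exact h5 p h
        · rintro ⟨h2, h3, h4⟩
          refine ⟨⟨h2, h3, fun p hp => h4 p (mem_union_left _ hp)⟩, fun p hp => ?_⟩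
          have := h4 p (mem_union_right _ hp)
          rwa [hc2P p (hT hp)] at this
      · rw [prod_union (hdisj T hT), hAA, prod_div_distrib, prod_const_one]
        have hTpr : (0 : ℝ) < ∏ p ∈ T, ((p : ℝ) - 1) := prod_pos fun p hp => by
          have := hpr1 p (hPm p (hT hp)).1
          linarith
        field_simp)
  -- the number of the subsets
  have hcardT : ((P.powerset.filter (fun T : Finset ℕ => ∏ p ∈ T, p ≤ (2 ^ 2 ^ J) ^ (F * F))).card : ℝ) ≤ (w : ℝ) ^ E := by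
    have h1 : (P.powerset.filter (fun T : Finset ℕ => ∏ p ∈ T, p ≤ (2 ^ 2 ^ J) ^ (F * F))).card ≤ (Icc 1 (w ^ E)).card := by
      apply card_le_card_of_injOn (fun T => ∏ p ∈ T, p)
      · intro T hT
        rw [mem_coe, mem_filter, mem_powerset] at hT
        rw [mem_coe, mem_Icc]
        exact ⟨prod_pos fun p hp => (hPm p (hT.1 hp)).1.pos, hT.2.trans hDw⟩
      · intro T hT T' hT' h
        rw [mem_coe, mem_filter, mem_powerset] at hT hT'
        have e1 : (∏ p ∈ T, p).primeFactors = T := Nat.primeFactors_prod fun p hp => (hPm p (hT.1 hp)).1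
        have e2 : (∏ p ∈ T', p).primeFactors = T' := Nat.primeFactors_prod fun p hp => (hPm p (hT'.1 hp)).1
        rw [← e1, ← e2]
        exact congrArg Nat.primeFactors h
    rw [Nat.card_Icc, Nat.add_sub_cancel] at h1
    exact_mod_cast h1
  have hJw : (J : ℝ) + 2 ≤ w := by
    have h1 := Pool.Agent.X55.Pal.JJ_le_self w
    have h2 : Nat.log 2 w + 3 ≤ w := by
      have h4 : 2 ^ Nat.log 2 w ≤ w := Nat.pow_log_le_self 2 (by omega)
      by_contra hcon2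
      push Not at hcon2
      have h5 : w - 2 ≤ Nat.log 2 w := by omega
      have h6 : 2 ^ (w - 2) ≤ w := (Nat.pow_le_pow_right (by norm_num) h5).trans h4
      have h7 : ∀ m : ℕ, 3 ≤ m → m + 2 < 2 ^ m := by
        intro m hm
        induction m, hm using Nat.le_induction with
        | base => norm_num
        | succ m _ ih => rw [pow_succ]; omega
      have h8 := h7 (w - 2) (by omega)
      omega
    have h3 : J + 2 ≤ w := by rw [hJ]; omega
    exact_mod_cast h3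
  -- the product
  have hprod : c1 / L ^ (1 / 2 : ℝ) ≤ ∏ p ∈ P, (1 - 1 / ((p : ℝ) - 1)) := by
    have h1 := (hV w (by omega)).1
    have hlw : 0 < Real.log w := Real.log_pos (by exact_mod_cast (by omega : 1 < w))
    have h2 : Real.log w ^ 2 ≤ L ^ (1 / 2 : ℝ) := by
      have h3 : Real.log w ≤ (A + 4 : ℝ) * Real.log L := by
        have h4 : Real.log w ≤ Real.log (L ^ (A + 4)) := Real.log_le_log (by exact_mod_cast (by omega : 0 < w)) hwU
        rw [Real.log_pow] at h4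
        push_cast at h4
        exact h4
      calc Real.log w ^ 2 ≤ ((A + 4 : ℝ) * Real.log L) ^ 2 := by gcongr
        _ ≤ _ := v3
    have h3 : ∏ p ∈ pz w, (1 - (numax 2 p : ℝ) / p) ≤ ∏ p ∈ P, (1 - 1 / ((p : ℝ) - 1)) := by
      have hsub : P ⊆ pz w := fun p hp => mem_pz.2 ⟨(hPm p hp).2.2.2.2.1, (hPm p hp).1⟩
      rw [← prod_sdiff hsub]
      have h4 : ∏ p ∈ P, (1 - (numax 2 p : ℝ) / p) ≤ ∏ p ∈ P, (1 - 1 / ((p : ℝ) - 1)) := by
        apply Finset.prod_le_prod (fun p hp => (numax_fac 2 p (hPm p hp).1 (by norm_num)).le)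
        intro p hp
        obtain ⟨h5, -, -, h6, -⟩ := hPm p hp
        have h7 : numax 2 p = 2 := by unfold numax; rw [if_neg (by omega)]
        have h8 := hpr1 p h5
        have h9 : 1 / ((p : ℝ) - 1) ≤ 2 / p := by
          rw [div_le_div_iff₀ (by linarith) (by linarith)]
          linarith
        rw [h7]
        push_cast
        linarith
      have h5 : ∏ p ∈ pz w \ P, (1 - (numax 2 p : ℝ) / p) ≤ 1 := by
        apply prod_le_one
        · intro p hp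
          exact (numax_fac 2 p (mem_pz.1 (mem_sdiff.1 hp).1).2 (by norm_num)).le
        · intro p _
          have : (0 : ℝ) ≤ (numax 2 p : ℝ) / p := by positivity
          linarith
      have h6 : 0 ≤ ∏ p ∈ P, (1 - (numax 2 p : ℝ) / p) :=
        prod_nonneg fun p hp => (numax_fac 2 p (hPm p hp).1 (by norm_num)).le
      calc _ ≤ 1 * ∏ p ∈ P, (1 - (numax 2 p : ℝ) / p) := mul_le_mul_of_nonneg_right h5 h6
        _ ≤ _ := by rw [one_mul]; exact h4
    refine le_trans ?_ (h1.trans h3)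
    gcongr
  -- the main term
  have hmain : (S : ℝ) / L ^ (A + 2) * (c1 / (2 * K0) * L ^ (1 / 2 : ℝ)) ≤ AA * ∏ p ∈ P, (1 - 1 / ((p : ℝ) - 1)) := by
    have h1 : (S : ℝ) / (2 * L) ≤ piN S := by
      rw [Pool.Agent.X55.Art.piN_eq]
      rw [lt_div_iff₀ hS0] at vpi
      rw [div_le_iff₀ (by positivity)]
      linarith
    have h2 : (Nat.totient M : ℝ) * ∏ p ∈ P0, ((p : ℝ) - 1) ≤ L ^ A * K0 := by
      have h3 : (Nat.totient M : ℝ) ≤ L ^ A := by
        refine le_trans ?_ hML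
        exact_mod_cast Nat.totient_le M
      have h4 : ∏ p ∈ P0, ((p : ℝ) - 1) ≤ K0 := by
        have h5 : ∏ p ∈ P0, ((p : ℝ) - 1) ≤ ∏ p ∈ P0, (p : ℝ) := by
          apply Finset.prod_le_prod
          · intro p hp
            have := hpr1 p (hP0m p hp).1
            linarith
          · intro p _
            linarith
        have h6 : ((∏ p ∈ P0, p : ℕ) : ℝ) ≤ K0 := by exact_mod_cast hP0K
        push_cast at h6
        exact h5.trans h6
      gcongr
    have h3 : (S : ℝ) / (2 * L) / (L ^ A * K0) ≤ AA := by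
      rw [hAA]
      gcongr
    have hLh : L ^ (1 / 2 : ℝ) * L ^ (1 / 2 : ℝ) = L := by
      rw [← Real.rpow_add hL0]
      norm_num
    have hLh0 : 0 < L ^ (1 / 2 : ℝ) := by positivity
    calc (S : ℝ) / L ^ (A + 2) * (c1 / (2 * K0) * L ^ (1 / 2 : ℝ)) =
        (S : ℝ) / (2 * L) / (L ^ A * K0) * (c1 / L ^ (1 / 2 : ℝ)) := by
          rw [pow_add, pow_two]
          field_simp
          rw [← pow_two] at hLh
          rw [hLh]
      _ ≤ AA * ∏ p ∈ P, (1 - 1 / ((p : ℝ) - 1)) := by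
          apply mul_le_mul h3 hprod (by positivity) hAA0
  -- the lower bound
  rw [sum_const, nsmul_eq_mul, mul_one, sum_const, nsmul_eq_mul] at key
  have hhalf : (1 / 2 : ℝ) ^ F ≤ 1 / 2 := by
    calc (1 / 2 : ℝ) ^ F ≤ (1 / 2 : ℝ) ^ 1 := pow_le_pow_of_le_one (by norm_num) (by norm_num) hF
      _ = 1 / 2 := pow_one _
  have herr : ((J : ℝ) + 2) * (((P.powerset.filter (fun T : Finset ℕ => ∏ p ∈ T, p ≤ (2 ^ 2 ^ J) ^ (F * F))).card : ℝ) *
      (Cs * (S / L ^ U))) ≤ Cs * (S / L ^ (A + 2)) := by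
    have h1 : ((J : ℝ) + 2) * (((P.powerset.filter (fun T : Finset ℕ => ∏ p ∈ T, p ≤ (2 ^ 2 ^ J) ^ (F * F))).card : ℝ) *
      (Cs * (S / L ^ U))) ≤ w * ((w : ℝ) ^ E * (Cs * (S / L ^ U))) := by gcongr
    refine h1.trans ?_
    have h2 : (w : ℝ) * (w : ℝ) ^ E ≤ L ^ ((A + 4) * (E + 1)) := by
      calc (w : ℝ) * (w : ℝ) ^ E = (w : ℝ) ^ (E + 1) := by ring
        _ ≤ (L ^ (A + 4)) ^ (E + 1) := by gcongr
        _ = _ := by rw [← pow_mul]
    calc (w : ℝ) * ((w : ℝ) ^ E * (Cs * (S / L ^ U))) = ((w : ℝ) * (w : ℝ) ^ E) * (Cs * (S / L ^ U)) := by ring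
      _ ≤ L ^ ((A + 4) * (E + 1)) * (Cs * (S / L ^ U)) := by gcongr
      _ = Cs * (S / L ^ (A + 2)) := by
          rw [hU, pow_add]
          field_simp
  have hM0 : 0 ≤ AA * ∏ p ∈ P, (1 - 1 / ((p : ℝ) - 1)) := le_trans (by positivity) hmain
  have hlow : (S : ℝ) / L ^ (A + 2) * (c1 / (4 * K0) * L ^ (1 / 2 : ℝ)) - Cs * (S / L ^ (A + 2)) ≤
      ((Ω.filter (fun q => ∀ p ∈ P, ¬ q ≡ c p [MOD p])).card : ℝ) := by
    rw [abs_le] at key
    have k1 := key.1
    have k2 : (1 / 2 : ℝ) ^ F * (AA * ∏ p ∈ P, (1 - 1 / ((p : ℝ) - 1))) ≤ 1 / 2 * (AA * ∏ p ∈ P, (1 - 1 / ((p : ℝ) - 1))) :=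
      mul_le_mul_of_nonneg_right hhalf hM0
    have k3 : (S : ℝ) / L ^ (A + 2) * (c1 / (4 * K0) * L ^ (1 / 2 : ℝ)) =
        1 / 2 * ((S : ℝ) / L ^ (A + 2) * (c1 / (2 * K0) * L ^ (1 / 2 : ℝ))) := by
      field_simp
      ring
    rw [k3]
    have k7 := le_sub_iff_add_le.mp k1
    refine le_trans ?_ (k7.trans (le_of_eq ?_))
    · linarith
    · congr!
  -- the upper bound
  have hup : ((Ω.filter (fun q => ∀ p ∈ P, ¬ q ≡ c p [MOD p])).card : ℝ) ≤ Real.sqrt S + C0 * L * (S / w + 1) := by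
    have hsub : Ω.filter (fun q => ∀ p ∈ P, ¬ q ≡ c p [MOD p]) ⊆ Icc 1 (Nat.sqrt S) ∪
        (PP.filter (fun p => w < p)).biUnion (fun p => (Ico 1 (1 + S)).filter (fun n => n ≡ c p [MOD p])) := by
      intro q hq
      rw [mem_filter, hΩ, mem_filter, mem_Icc] at hq
      obtain ⟨⟨⟨hq1, hqS⟩, hqp, hqr, hq0⟩, hqP⟩ := hq
      rw [mem_union]
      by_cases hqs : S < q ^ 2
      · right
        obtain ⟨p, hp, hpc⟩ := hcon q hqp hqs hqS hqr
        rw [mem_biUnion]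
        refine ⟨p, ?_, ?_⟩
        · rw [mem_filter]
          refine ⟨hp, ?_⟩
          by_contra hpw
          push Not at hpw
          by_cases hpz : p ≤ z0
          · have h1 : p ∈ P0 := by rw [hP0, mem_filter]; exact ⟨hp, hpz⟩
            exact (hc2P0 p h1).1 ((hq0 p h1).symm.trans hpc)
          · by_cases hpd : p ∣ c p
            · have h1 : p ∣ q := (Nat.modEq_zero_iff_dvd).1 (hpc.trans ((Nat.modEq_zero_iff_dvd).2 hpd))
              have h2 : p = q := ((Nat.prime_dvd_prime_iff_eq (hPP p hp).1 hqp).1 h1)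
              have h3 : (q : ℝ) ^ 2 ≤ (L ^ (A + 4)) ^ 2 := by
                have h4 : (q : ℝ) ≤ w := by exact_mod_cast (h2 ▸ hpw)
                have h5 : (q : ℝ) ≤ L ^ (A + 4) := h4.trans hwU
                gcongr
              have h4 : (S : ℝ) < (q : ℝ) ^ 2 := by exact_mod_cast hqs
              linarith
            · have h1 : p ∈ P := by rw [hP, mem_filter]; exact ⟨hp, by omega, hpw, hpd⟩
              exact hqP p h1 hpc
        · rw [mem_filter, mem_Ico]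
          exact ⟨⟨hq1, by omega⟩, hpc⟩
      · left
        rw [mem_Icc]
        refine ⟨hq1, ?_⟩
        rw [Nat.le_sqrt]
        push Not at hqs
        nlinarith
    have h1 := card_le_card hsub
    have h2 := h1.trans (card_union_le _ _)
    rw [Nat.card_Icc, Nat.add_sub_cancel] at h2
    have h3 : ((((PP.filter (fun p => w < p)).biUnion (fun p => (Ico 1 (1 + S)).filter (fun n => n ≡ c p [MOD p])))).card : ℝ) ≤
        C0 * L * (S / w + 1) := by
      have hw0 : (0 : ℝ) < w := by exact_mod_cast (by omega : 0 < w)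
      calc ((((PP.filter (fun p => w < p)).biUnion (fun p => (Ico 1 (1 + S)).filter (fun n => n ≡ c p [MOD p])))).card : ℝ) ≤
          ∑ p ∈ PP.filter (fun p => w < p), (((Ico 1 (1 + S)).filter (fun n => n ≡ c p [MOD p])).card : ℝ) := by
            exact_mod_cast card_biUnion_le
        _ ≤ ∑ p ∈ PP.filter (fun p => w < p), ((S : ℝ) / w + 1) := by
            refine sum_le_sum fun p hp => ?_
            rw [mem_filter] at hp
            have h4 := card_modEq 1 S p (c p) (by omega)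
            rw [abs_le] at h4
            have h5 : (S : ℝ) / p ≤ S / w := by
              have : (w : ℝ) ≤ p := by exact_mod_cast hp.2.le
              gcongr
            linarith [h4.2]
        _ = ((PP.filter (fun p => w < p)).card : ℝ) * ((S : ℝ) / w + 1) := by rw [sum_const, nsmul_eq_mul]
        _ ≤ C0 * L * (S / w + 1) := by
            apply mul_le_mul_of_nonneg_right _ (by positivity)
            refine le_trans ?_ hcard
            exact_mod_cast card_filter_le _ _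
    have h4 : ((Nat.sqrt S : ℕ) : ℝ) ≤ Real.sqrt S := by
      apply Real.le_sqrt_of_sq_le
      exact_mod_cast Nat.sqrt_le' S
    have h5 : ((Ω.filter (fun q => ∀ p ∈ P, ¬ q ≡ c p [MOD p])).card : ℝ) ≤ ((Nat.sqrt S : ℕ) : ℝ) +
        ((((PP.filter (fun p => w < p)).biUnion (fun p => (Ico 1 (1 + S)).filter (fun n => n ≡ c p [MOD p])))).card : ℝ) := by
      exact_mod_cast h2
    linarith
  have hw0 : (0 : ℝ) < w := by exact_mod_cast (by omega : 0 < w)
  have hun : C0 * L * (S / w + 1) ≤ C0 * (S / L ^ (A + 2)) + C0 * L := by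
    have h1 : (S : ℝ) / w ≤ S / L ^ (A + 3) := by gcongr
    calc C0 * L * (S / w + 1) ≤ C0 * L * (S / L ^ (A + 3) + 1) := by gcongr
      _ = C0 * (S / L ^ (A + 2)) + C0 * L := by
          rw [show A + 3 = (A + 2) + 1 by ring, pow_succ]
          field_simp
  have hSL : 0 < (S : ℝ) / L ^ (A + 2) := by positivity
  have hfin : (S : ℝ) / L ^ (A + 2) * (Cs + C0 + 1) < (S : ℝ) / L ^ (A + 2) * (c1 / (4 * K0) * L ^ (1 / 2 : ℝ)) :=
    mul_lt_mul_of_pos_left v5 hSL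
  linarith

end Pool.Agent.X55.Baker
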