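import Pool.Agent.X55.Baker.Core
import Pool.Agent.X55.Baker.Prm

set_option autoImplicit false

/-! # Solutions of `a x + b q = e z + d` with a prime `q` and almost primes `x`, `z` -/

namespace Pool.Agent.X55.Baker

open Finset Filter Pool.Agent.H373R2.T7 Pool.Agent.X55.Fam

/-- a residue class for an invertible coefficient -/
lemma solve_mod (b u : ℤ) (p : ℕ) (hp : p.Prime) (h : ¬ (p : ℤ) ∣ b) : ∃ c : ℕ, (p : ℤ) ∣ u - b * c := by
  have h1 : IsCoprime (p : ℤ) b := (Prime.coprime_iff_not_dvd (Nat.prime_iff_prime_int.1 hp)).2 h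
  obtain ⟨s, t, hst⟩ := h1
  have hp0 : (0 : ℤ) < p := by exact_mod_cast hp.pos
  refine ⟨((u * t) % (p : ℤ)).toNat, ?_⟩
  rw [Int.toNat_of_nonneg (Int.emod_nonneg _ hp0.ne')]
  have h2 := Int.emod_add_mul_ediv (u * t) p
  have h3 : (u * t) % (p : ℤ) = u * t - p * ((u * t) / p) := by linarith
  rw [h3]
  refine ⟨u * s + b * ((u * t) / p), ?_⟩
  linear_combination -u * hst

open Classical in
theorem core2 : ∃ K : ℕ, 1 ≤ K ∧ ∀ (C0 : ℝ) (A : ℕ), 0 ≤ C0 → ∃ X₀ : ℕ, 3 ≤ X₀ ∧ ∀ y : ℕ, X₀ ≤ y →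
    ∀ (a e : ℕ) (b d : ℤ), 0 < a → 0 < e →
    (∀ p : ℕ, p.Prime → ¬ (p ∣ a ∧ p ∣ e ∧ (p : ℤ) ∣ b)) →
    (∀ p : ℕ, p.Prime → ¬ (p ∣ a ∧ p ∣ e ∧ (p : ℤ) ∣ d)) →
    (∀ p : ℕ, p.Prime → ¬ (p ∣ a ∧ (p : ℤ) ∣ b ∧ (p : ℤ) ∣ d)) →
    (∀ p : ℕ, p.Prime → ¬ (p ∣ e ∧ (p : ℤ) ∣ b ∧ (p : ℤ) ∣ d)) →
    Even ((a : ℤ) + b + e + d) → ∀ m : ℤ, (a : ℤ) ≤ m → (e : ℤ) ≤ m → |b| ≤ m →
    (((Nat.gcd a e) ^ 2 : ℕ) : ℝ) ≤ Real.log ((y ^ 2 : ℕ) : ℝ) ^ A →
    (((a * e).primeFactors.card : ℕ) : ℝ) ≤ C0 * Real.log ((y ^ 2 : ℕ) : ℝ) →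
    ∃ F : Finset (ℕ × ℕ × ℕ), 2 * y ≤ F.card ∧ ∀ t ∈ F, (a : ℤ) * t.1 + b * t.2.1 - e * t.2.2 = d ∧
      (∀ p ∈ pz y, ¬ p ∣ t.1 ∧ ¬ p ∣ t.2.2) ∧ t.2.1.Prime ∧ y < t.2.1 ∧ 2 ≤ t.1 ∧ 2 ≤ t.2.2 ∧
      (t.1 : ℤ) ≤ |d| + 4 * m * (y : ℤ) ^ (2 * K) ∧ (t.2.1 : ℤ) ≤ |d| + 4 * m * (y : ℤ) ^ (2 * K) ∧
      (t.2.2 : ℤ) ≤ |d| + 4 * m * (y : ℤ) ^ (2 * K) := by
  obtain ⟨K, X₁, hK, hX₁, hint⟩ := interval
  refine ⟨K, hK, fun C0 A hC0 => ?_⟩
  obtain ⟨S₀, hS₀⟩ := prime_avoid C0 hC0 A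
  have evg : ∀ᶠ X : ℝ in atTop, Real.log (X ^ 2) ^ A < X := by
    have h1 := (isLittleO_log_rpow_rpow_atTop (A : ℝ) one_pos).def (show (0 : ℝ) < 1 / (2 * 2 ^ A) by positivity)
    filter_upwards [h1, eventually_ge_atTop (1 : ℝ)] with X hX hX1
    rw [Real.rpow_natCast, Real.norm_eq_abs, Real.norm_eq_abs, abs_of_nonneg (pow_nonneg (Real.log_nonneg hX1) _),
      Real.rpow_one, abs_of_nonneg (by linarith)] at hX
    rw [Real.log_pow]
    push_cast
    rw [mul_pow]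
    have h2 : (2 : ℝ) ^ A * Real.log X ^ A ≤ 2 ^ A * (1 / (2 * 2 ^ A) * X) := by gcongr
    have h3 : (2 : ℝ) ^ A * (1 / (2 * 2 ^ A) * X) = X / 2 := by field_simp
    linarith
  obtain ⟨X₂, hX₂⟩ := eventually_atTop.mp evg
  refine ⟨max (max X₁ S₀) ⌈X₂⌉₊, hX₁.trans ((le_max_left _ _).trans (le_max_left _ _)), fun y hy a e b d ha he h1 h2 h3 h4 h5 m ham hem hbm hgl hpl => ?_⟩
  have hyX₁ : X₁ ≤ y := ((le_max_left _ _).trans (le_max_left _ _)).trans hy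
  have hyS₀ : S₀ ≤ y := ((le_max_right _ _).trans (le_max_left _ _)).trans hy
  have hyX₂ : X₂ ≤ (y : ℝ) := (Nat.le_ceil _).trans (by exact_mod_cast (le_max_right _ _).trans hy)
  have hy3 : 3 ≤ y := hX₁.trans hyX₁
  have hgy' := hX₂ _ hyX₂
  -- the greatest common divisor
  obtain ⟨g, hg⟩ : ∃ g : ℕ, g = Nat.gcd a e := ⟨_, rfl⟩
  rw [← hg] at hgl
  have hg0 : 0 < g := by rw [hg]; exact Nat.gcd_pos_of_pos_left _ ha
  have hga : g ∣ a := by rw [hg]; exact Nat.gcd_dvd_left _ _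
  have hge : g ∣ e := by rw [hg]; exact Nat.gcd_dvd_right _ _
  obtain ⟨a', ha'⟩ := hga
  obtain ⟨e', he'⟩ := hge
  have hcop : Nat.Coprime a' e' := by
    have h6 : Nat.gcd (g * a') (g * e') = g := by rw [← ha', ← he', hg]
    rw [Nat.gcd_mul_left] at h6
    exact Nat.eq_of_mul_eq_mul_left hg0 (by rw [mul_one]; exact h6)
  have ha'0 : 0 < a' := Nat.pos_of_ne_zero (by rintro rfl; omega)
  have he'0 : 0 < e' := Nat.pos_of_ne_zero (by rintro rfl; omega)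
  have hgbp : ∀ p : ℕ, p.Prime → p ∣ g → ¬ (p : ℤ) ∣ b := fun p hp h8 h7 =>
    h1 p hp ⟨ha' ▸ h8.mul_right _, he' ▸ h8.mul_right _, h7⟩
  have hgb : IsCoprime (g : ℤ) b := by
    rw [Int.isCoprime_iff_gcd_eq_one]
    by_contra hcon
    obtain ⟨p, hp, hpd⟩ := Nat.exists_prime_and_dvd hcon
    have h6 : (p : ℤ) ∣ g := (Int.natCast_dvd_natCast.2 hpd).trans (Int.gcd_dvd_left _ _)
    have h7 : (p : ℤ) ∣ b := (Int.natCast_dvd_natCast.2 hpd).trans (Int.gcd_dvd_right _ _)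
    exact hgbp p hp (by exact_mod_cast h6) h7
  obtain ⟨u, v, huv⟩ := hgb
  have hg0' : (0 : ℤ) < g := by exact_mod_cast hg0
  obtain ⟨y0, hy0⟩ : ∃ y0 : ℕ, (y0 : ℤ) = (d * v) % (g : ℤ) := ⟨((d * v) % (g : ℤ)).toNat,
    Int.toNat_of_nonneg (Int.emod_nonneg _ hg0'.ne')⟩
  have hy0g : (y0 : ℤ) < g := by rw [hy0]; exact Int.emod_lt_of_pos _ hg0'
  obtain ⟨D0, hD0⟩ : ∃ D0 : ℤ, (g : ℤ) * D0 = d - b * y0 := by
    have h6 := Int.emod_add_mul_ediv (d * v) g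
    refine ⟨d * u + b * ((d * v) / g), ?_⟩
    rw [hy0]
    have h7 : (d * v) % (g : ℤ) = d * v - g * ((d * v) / g) := by linarith
    rw [h7]
    linear_combination d * huv
  have hgy : ∀ p : ℕ, p.Prime → ¬ ((p : ℤ) ∣ g ∧ (p : ℤ) ∣ y0) := by
    rintro p hp ⟨h6, h7⟩
    have h8 : p ∣ g := by exact_mod_cast h6
    refine h2 p hp ⟨ha' ▸ h8.mul_right _, he' ▸ h8.mul_right _, ?_⟩
    have h9 : d = g * D0 + b * y0 := by linarith
    rw [h9]
    exact dvd_add (h6.mul_right _) (h7.mul_left _)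
  have hpr2 : Nat.Prime 2 := Nat.prime_two
  -- the class modulo the radical of g
  obtain ⟨w, hw⟩ : ∃ w : ℕ → ℤ, ∀ p, w p = if p ∣ a' * e' then 1 else 0 := ⟨_, fun _ => rfl⟩
  have hcl : ∀ p : ℕ, ∃ c : ℕ, p ∈ g.primeFactors → (p : ℤ) ∣ (D0 - w p) - b * c := by
    intro p
    by_cases hp : p ∈ g.primeFactors
    · have hp' := Nat.mem_primeFactors.1 hp
      obtain ⟨c, hc⟩ := solve_mod b (D0 - w p) p hp'.1 (hgbp p hp'.1 hp'.2.1)
      exact ⟨c, fun _ => hc⟩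
    · exact ⟨0, fun h => absurd h hp⟩
  choose cg hcg using hcl
  obtain ⟨s0, hs0⟩ := cls 1 0 g.primeFactors (fun p hp => ⟨(Nat.mem_primeFactors.1 hp).1, fun h => by
    have := (Nat.mem_primeFactors.1 hp).1.one_lt
    have := Nat.dvd_one.1 h
    omega⟩) cg
  obtain ⟨R, hR⟩ : ∃ R : ℕ, R = ∏ p ∈ g.primeFactors, p := ⟨_, rfl⟩
  have hRg : R ∣ g := by rw [hR]; exact Nat.prod_primeFactors_dvd g
  have hR1 : 1 ≤ R := Nat.pos_of_dvd_of_pos hRg hg0
  rw [← hR, one_mul] at hs0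
  obtain ⟨M, hM⟩ : ∃ M : ℕ, M = g * R := ⟨_, rfl⟩
  have hM1 : 1 ≤ M := by rw [hM]; exact Nat.mul_pos hg0 hR1
  have hMg : M ≤ g ^ 2 := by rw [hM, pow_two]; exact Nat.mul_le_mul_left _ (Nat.le_of_dvd hg0 hRg)
  have hpM : ∀ p : ℕ, p.Prime → p ∣ M → p ∣ g := by
    intro p hp h
    rw [hM] at h
    rcases (hp.dvd_mul).1 h with h | h
    · exact h
    · exact h.trans hRg
  obtain ⟨rr, hrr⟩ : ∃ rr : ℕ, rr = y0 + g * s0 := ⟨_, rfl⟩
  have hrM : Nat.Coprime rr M := by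
    apply Nat.coprime_of_dvd
    intro p hp hp1 hp2
    have h6 := hpM p hp hp2
    refine hgy p hp ⟨by exact_mod_cast h6, ?_⟩
    rw [hrr] at hp1
    exact_mod_cast (Nat.dvd_add_left (h6.mul_right _)).1 hp1
  -- the primes which are to be avoided
  obtain ⟨PP, hPP⟩ : ∃ PP : Finset ℕ, PP = (a * e).primeFactors.filter (fun p => 3 ≤ p ∧ ¬ p ∣ g ∧ ¬ (p : ℤ) ∣ b) :=
    ⟨_, rfl⟩
  have hcl2 : ∀ p : ℕ, ∃ c : ℕ, p ∈ PP → (p : ℤ) ∣ d - b * c := by
    intro p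
    by_cases hp : p ∈ PP
    · have hp' := hp
      rw [hPP, mem_filter] at hp'
      obtain ⟨c, hc⟩ := solve_mod b d p (Nat.mem_primeFactors.1 hp'.1).1 hp'.2.2.2
      exact ⟨c, fun _ => hc⟩
    · exact ⟨0, fun h => absurd h hp⟩
  choose cd hcd using hcl2
  have hPPm : ∀ p ∈ PP, p.Prime ∧ 3 ≤ p ∧ ¬ p ∣ M := by
    intro p hp
    rw [hPP, mem_filter] at hp
    have hpp := (Nat.mem_primeFactors.1 hp.1).1
    exact ⟨hpp, hp.2.1, fun h => hp.2.2.1 (hpM p hpp h)⟩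
  have hyy : y ≤ y ^ 2 := Nat.le_self_pow (by norm_num) y
  obtain ⟨q, hqp, hqS, hqS', hqr, hqa⟩ := hS₀ (y ^ 2) (hyS₀.trans hyy) M rr hM1 (by
    refine le_trans ?_ hgl
    exact_mod_cast hMg) hrM PP cd hPPm (by
    refine le_trans ?_ hpl
    rw [hPP]
    exact_mod_cast card_filter_le _ _)
  have hqy : y < q := lt_of_pow_lt_pow_left₀ 2 (Nat.zero_le _) hqS
  -- the parameter s
  have hgq : g < y := by
    have h6 : (g : ℝ) ≤ ((g ^ 2 : ℕ) : ℝ) := by exact_mod_cast Nat.le_self_pow (by norm_num) g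
    have h7 : (g : ℝ) < y := by
      refine (h6.trans hgl).trans_lt ?_
      push_cast
      exact hgy'
    exact_mod_cast h7
  have hy0q : y0 < q := by
    have : y0 < g := by exact_mod_cast hy0g
    omega
  have hqg : q ≡ y0 [MOD g] := by
    have h6 : q ≡ rr [MOD g] := hqr.of_dvd (by rw [hM]; exact Nat.dvd_mul_right _ _)
    rw [hrr] at h6
    refine h6.trans ?_
    unfold Nat.ModEq
    rw [Nat.add_mul_mod_self_left]
  obtain ⟨s, hs⟩ : ∃ s : ℕ, q = y0 + g * s := by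
    obtain ⟨k, hk⟩ := (Nat.modEq_iff_dvd' hy0q.le).1 hqg.symm
    exact ⟨k, by omega⟩
  have hss : s ≡ s0 [MOD R] := by
    have h6 : y0 + g * s ≡ y0 + g * s0 [MOD g * R] := by
      rw [← hs, ← hrr, ← hM]
      exact hqr
    have h7 : g * s ≡ g * s0 [MOD g * R] := Nat.ModEq.add_left_cancel' y0 h6
    exact Nat.ModEq.mul_left_cancel' hg0.ne' h7
  have hsp : ∀ p ∈ g.primeFactors, s ≡ cg p [MOD p] := ((hs0 s).1 hss).2
  set D : ℤ := D0 + -b * s with hD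
  have hDq : (g : ℤ) * D = d - b * q := by
    rw [hs, hD]
    push_cast
    linear_combination hD0
  have hDg : ∀ p ∈ g.primeFactors, (p : ℤ) ∣ D - w p := by
    intro p hp
    have h6 := hcg p hp
    have h7 : (p : ℤ) ∣ (cg p : ℤ) - s := (Nat.modEq_iff_dvd).1 (hsp p hp)
    have h8 : D - w p = (D0 - w p - b * cg p) + b * ((cg p : ℤ) - s) := by rw [hD]; ring
    rw [h8]
    exact dvd_add h6 (h7.mul_left _)
  have hq2 : ¬ (2 : ℤ) ∣ q := by
    intro h6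
    have h7 : 2 ∣ q := by exact_mod_cast h6
    have h8 : 2 = q := (Nat.prime_dvd_prime_iff_eq hpr2 hqp).1 h7
    omega
  -- parity if g is odd
  have hpar : ¬ 2 ∣ g → ((2 : ℤ) ∣ D ↔ (2 : ℤ) ∣ (a' : ℤ) + e') := by
    intro hg2
    have hg2' : (g : ℤ) % 2 = 1 := by omega
    have hq2' : (q : ℤ) % 2 = 1 := by omega
    have h6 : (2 : ℤ) ∣ g * (a' : ℤ) + b + g * e' + d := by
      rw [ha', he'] at h5
      push_cast at h5
      exact h5.two_dvd
    have h7 : (2 : ℤ) ∣ g * D - (d - b * q) := by rw [hDq, sub_self]; exact dvd_zero _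
    have e1 : (2 : ℤ) ∣ D - ((a' : ℤ) + e') := by
      obtain ⟨g1, hg1⟩ : ∃ g1 : ℤ, (g : ℤ) = 2 * g1 + 1 := ⟨(g : ℤ) / 2, by omega⟩
      obtain ⟨q1, hq1⟩ : ∃ q1 : ℤ, (q : ℤ) = 2 * q1 + 1 := ⟨(q : ℤ) / 2, by omega⟩
      rw [hg1] at h6 h7
      rw [hq1] at h7
      have h8 := dvd_add h6 h7
      have e2 : D - ((a' : ℤ) + e') = ((2 * g1 + 1) * (a' : ℤ) + b + (2 * g1 + 1) * e' + d +
          ((2 * g1 + 1) * D - (d - b * (2 * q1 + 1)))) + 2 * (- g1 * a' - g1 * e' - g1 * D - b - b * q1 - a' - e') := by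
        ring
      rw [e2]
      exact dvd_add h8 (Dvd.intro _ rfl)
    constructor
    · intro h8
      have := dvd_sub h8 e1
      have e3 : D - (D - ((a' : ℤ) + e')) = (a' : ℤ) + e' := by ring
      rwa [e3] at this
    · intro h8
      have := dvd_add e1 h8
      have e3 : D - ((a' : ℤ) + e') + ((a' : ℤ) + e') = D := by ring
      rwa [e3] at this
  have hnot2 : ¬ (2 ∣ a' ∧ 2 ∣ e') := fun h => Nat.not_coprime_of_dvd_of_dvd (by norm_num) h.1 h.2 hcop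
  have hgood : ∀ p : ℕ, p.Prime → p ≤ y → ¬ ((p : ℤ) ∣ (a' : ℤ) * e' ∧ (p : ℤ) ∣ D) := by
    rintro p hp hpy ⟨h6, h7⟩
    have h6' : p ∣ a' * e' := by exact_mod_cast h6
    by_cases hpg : p ∣ g
    · have h8 := hDg p (Nat.mem_primeFactors.2 ⟨hp, hpg, hg0.ne'⟩)
      rw [hw, if_pos h6'] at h8
      have h9 : (p : ℤ) ∣ 1 := by
        have := dvd_sub h7 h8
        have e3 : D - (D - 1) = 1 := by ring
        rwa [e3] at this
      have h10 : p ∣ 1 := by exact_mod_cast h9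
      exact hp.one_lt.ne' (Nat.dvd_one.1 h10)
    · rcases Nat.lt_or_ge p 3 with hp3 | hp3
      · have hp2 : p = 2 := by have := hp.two_le; omega
        subst hp2
        have h8 := (hpar hpg).1 (by exact_mod_cast h7)
        rcases (hp.dvd_mul).1 h6' with h9 | h9
        · exact hnot2 ⟨h9, by omega⟩
        · exact hnot2 ⟨by omega, h9⟩
      · have h8 : (p : ℤ) ∣ d - b * q := by rw [← hDq]; exact h7.mul_left _
        by_cases hpb : (p : ℤ) ∣ b
        · have h9 : (p : ℤ) ∣ d := by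
            have := dvd_add h8 (hpb.mul_right (q : ℤ))
            have e3 : d - b * q + b * q = d := by ring
            rwa [e3] at this
          rcases (hp.dvd_mul).1 h6' with h10 | h10
          · exact h3 p hp ⟨ha' ▸ h10.mul_left _, hpb, h9⟩
          · exact h4 p hp ⟨he' ▸ h10.mul_left _, hpb, h9⟩
        · have hpae : p ∣ a * e := by
            rw [ha', he']
            have : g * a' * (g * e') = (a' * e') * (g * g) := by ring
            rw [this]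
            exact h6'.mul_right _
          have hpPP : p ∈ PP := by
            rw [hPP, mem_filter]
            exact ⟨Nat.mem_primeFactors.2 ⟨hp, hpae, (Nat.mul_pos ha he).ne'⟩, hp3, hpg, hpb⟩
          have h9 := hcd p hpPP
          have h10 : (p : ℤ) ∣ b * ((cd p : ℤ) - q) := by
            have := dvd_sub h8 h9
            have e3 : d - b * q - (d - b * cd p) = b * ((cd p : ℤ) - q) := by ring
            rwa [e3] at this
          have h11 := ((Nat.prime_iff_prime_int.1 hp).dvd_or_dvd h10).resolve_left hpb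
          exact hqa p hpPP ((Nat.modEq_iff_dvd).2 h11)
  have hev : ¬ (¬ (2 : ℤ) ∣ (a' : ℤ) * e' ∧ ¬ (2 : ℤ) ∣ D) := by
    rintro ⟨h6, h7⟩
    have h6' : ¬ 2 ∣ a' * e' := by exact_mod_cast h6
    by_cases hpg : 2 ∣ g
    · have h8 := hDg 2 (Nat.mem_primeFactors.2 ⟨hpr2, hpg, hg0.ne'⟩)
      rw [hw, if_neg h6', sub_zero] at h8
      exact h7 (by exact_mod_cast h8)
    · apply h7
      rw [hpar hpg]
      rw [Nat.Prime.dvd_mul hpr2] at h6'
      omega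
  obtain ⟨x, z, hxz, hx, hz⟩ := part a' e' ha'0 he'0 hcop D
  -- the second sieve
  obtain ⟨Q2, hQ2⟩ : ∃ Q2 : ℕ → ℕ → Prop, ∀ p t, Q2 p t ↔ (p ≤ y ∧ ((p : ℤ) ∣ (x : ℤ) + e' * t ∨
    (p : ℤ) ∣ (z : ℤ) + a' * t)) := ⟨_, fun _ _ => Iff.rfl⟩
  have hadm2 : Adm Q2 2 := by
    refine adm_of Q2 (fun p t => p ≤ y ∧ (p : ℤ) ∣ (x : ℤ) + e' * t) (fun p t => p ≤ y ∧ (p : ℤ) ∣ (z : ℤ) + a' * t)
      ?_ ?_ ?_ ?_ ?_
    · intro p n
      rw [hQ2, hQ2, per_lin (x : ℤ) e' p n, per_lin (z : ℤ) a' p n]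
    · intro p hp hp3 n hn
      rw [hQ2] at hn
      rcases hn with ⟨h6, h7 | h7⟩
      · exact Or.inl ⟨h6, h7⟩
      · exact Or.inr ⟨h6, h7⟩
    · intro p hp _ r r' hr hr' hq hq'
      refine one_root (x : ℤ) e' p hp ?_ r r' hr hr' hq.2 hq'.2
      rintro ⟨h7, h8⟩
      refine hgood p hp hq.1 ⟨h7.mul_left _, ?_⟩
      rw [← hxz]
      exact dvd_sub (h8.mul_left _) (h7.mul_right _)
    · intro p hp _ r r' hr hr' hq hq'
      refine one_root (z : ℤ) a' p hp ?_ r r' hr hr' hq.2 hq'.2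
      rintro ⟨h7, h8⟩
      refine hgood p hp hq.1 ⟨h7.mul_right _, ?_⟩
      rw [← hxz]
      exact dvd_sub (h7.mul_right _) (h8.mul_left _)
    · have h6 := par2 (D : ZMod 2) (x : ZMod 2) (z : ZMod 2) (a' : ZMod 2) (e' : ZMod 2)
        (by have := congrArg (fun z : ℤ => (z : ZMod 2)) hxz
            push_cast at this
            exact this)
        (by rintro ⟨h7, h8⟩
            have h7' : ((a' : ℤ) : ZMod 2) = 0 := by push_cast; exact h7
            have h8' : ((e' : ℤ) : ZMod 2) = 0 := by push_cast; exact h8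
            rw [← two_dvd] at h7' h8'
            exact hnot2 ⟨by exact_mod_cast h7', by exact_mod_cast h8'⟩)
        (by rintro ⟨h7, h8⟩
            refine hgood 2 hpr2 (by omega) ⟨?_, ?_⟩
            · have := two_dvd ((a' : ℤ) * e')
              push_cast at this ⊢
              exact this.2 h7
            · exact (two_dvd D).2 h8)
        (by rintro ⟨h7, h8⟩
            refine hev ⟨?_, ?_⟩
            · intro h9
              apply h7
              have := two_dvd ((a' : ℤ) * e')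
              push_cast at this h9
              exact this.1 h9
            · intro h9
              exact h8 ((two_dvd D).1 h9))
      obtain ⟨t, ht1, ht2⟩ := h6
      have htv : ((t.val : ℕ) : ZMod 2) = t := ZMod.natCast_zmod_val t
      refine ⟨t.val, ?_⟩
      rw [hQ2]
      rintro ⟨_, h7 | h7⟩
      · apply ht1
        have := two_dvd ((x : ℤ) + e' * (t.val : ℕ))
        push_cast at this h7
        rw [htv] at this
        exact this.1 h7
      · apply ht2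
        have := two_dvd ((z : ℤ) + a' * (t.val : ℕ))
        push_cast at this h7
        rw [htv] at this
        exact this.1 h7
  have ht := hint y hyX₁ Q2 hadm2 2
  set T := (Ico 2 (2 + y ^ (2 * K))).filter (fun n => ∀ p ∈ pz y, ¬ Q2 p n) with hT
  have hyK : (y : ℤ) ^ 2 ≤ (y : ℤ) ^ (2 * K) := by
    have h6 : y ^ 2 ≤ y ^ (2 * K) := Nat.pow_le_pow_right (by omega) (by omega)
    exact_mod_cast h6
  have hS2 : (2 : ℤ) ≤ (y : ℤ) ^ (2 * K) := by
    have h6 : y ≤ y ^ (2 * K) := Nat.le_self_pow (by omega) y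
    have h7 : 2 ≤ y ^ (2 * K) := by omega
    exact_mod_cast h7
  have hm1 : 1 ≤ m := by
    have : (1 : ℤ) ≤ a := by exact_mod_cast ha
    linarith
  have ha'1 : (1 : ℤ) ≤ a' := by exact_mod_cast ha'0
  have he'1 : (1 : ℤ) ≤ e' := by exact_mod_cast he'0
  have hg1 : (1 : ℤ) ≤ g := by exact_mod_cast hg0
  have haz : (a : ℤ) = g * a' := by rw [ha']; push_cast; ring
  have hez : (e : ℤ) = g * e' := by rw [he']; push_cast; ring
  have ha'm : (a' : ℤ) ≤ m := by nlinarith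
  have he'm : (e' : ℤ) ≤ m := by nlinarith
  have hqz : (q : ℤ) ≤ (y : ℤ) ^ 2 := by exact_mod_cast hqS'
  have hDb' : |D| ≤ |d| + m * (y : ℤ) ^ (2 * K) := by
    have h7 : (g : ℤ) * |D| ≤ |d| + |b| * q := by
      have h8 : (g : ℤ) * |D| = |d - b * q| := by
        rw [← hDq, abs_mul, abs_of_pos hg0']
      rw [h8]
      refine (abs_sub _ _).trans ?_
      rw [abs_mul, abs_of_nonneg (show (0 : ℤ) ≤ (q : ℤ) by positivity)]
    have h8 : |b| * q ≤ m * (y : ℤ) ^ (2 * K) := by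
      apply mul_le_mul hbm (hqz.trans hyK) (by positivity) (by linarith)
    have h9 : |D| ≤ g * |D| := le_mul_of_one_le_left (abs_nonneg D) hg1
    linarith
  have hfin : m * (y : ℤ) ^ (2 * K) + m + m * (1 + (y : ℤ) ^ (2 * K)) ≤ 4 * m * (y : ℤ) ^ (2 * K) := by
    nlinarith
  refine ⟨T.image (fun t => (x + e' * t, q, z + a' * t)), ?_, ?_⟩
  · rw [card_image_of_injective]
    · exact ht
    · intro t t' htt
      have h6 : x + e' * t = x + e' * t' := congrArg Prod.fst htt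
      exact Nat.eq_of_mul_eq_mul_left he'0 (by omega)
  · intro q' hq'
    rw [mem_image] at hq'
    obtain ⟨t, htT, rfl⟩ := hq'
    rw [hT, mem_filter, mem_Ico] at htT
    obtain ⟨⟨ht2, htS⟩, htQ⟩ := htT
    have htS' : (t : ℤ) < 2 + (y : ℤ) ^ (2 * K) := by exact_mod_cast htS
    have ht2' : (2 : ℤ) ≤ t := by exact_mod_cast ht2
    dsimp only
    push_cast
    refine ⟨?_, ?_, hqp, hqy, ?_, ?_, ?_, ?_, ?_⟩
    · rw [haz, hez]
      have h6 : (a' : ℤ) * x - e' * z = D := hxz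
      linear_combination g * h6 + hDq
    · intro p hp
      have hp' := mem_pz.1 hp
      refine ⟨fun h6 => htQ p hp ((hQ2 _ _).2 ⟨hp'.1, Or.inl ?_⟩), fun h6 => htQ p hp ((hQ2 _ _).2 ⟨hp'.1, Or.inr ?_⟩)⟩
      · exact_mod_cast h6
      · exact_mod_cast h6
    · have h6 : t ≤ e' * t := Nat.le_mul_of_pos_left t he'0
      omega
    · have h6 : t ≤ a' * t := Nat.le_mul_of_pos_left t ha'0
      omega
    · have h6 : (e' : ℤ) * t ≤ m * (1 + (y : ℤ) ^ (2 * K)) := mul_le_mul he'm (by omega) (by positivity) (by linarith)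
      linarith
    · have h7 := abs_nonneg d
      have h8 : (y : ℤ) ^ (2 * K) ≤ m * (y : ℤ) ^ (2 * K) := le_mul_of_one_le_left (by linarith) hm1
      linarith
    · have h6 : (a' : ℤ) * t ≤ m * (1 + (y : ℤ) ^ (2 * K)) := mul_le_mul ha'm (by omega) (by positivity) (by linarith)
      linarith

end Pool.Agent.X55.Baker
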