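import Pool.Agent.X55.Fam.Uni

set_option autoImplicit false

/-! # The sieve in an interval, uniformly in the removed residue classes -/

namespace Pool.Agent.X55.Baker

open Finset Filter Pool.Agent.H373R2.T7 Pool.Agent.X55.Fam

lemma card_modEq (M S d r : ℕ) (hd : 0 < d) :
    |(((Ico M (M + S)).filter (fun n => n ≡ r [MOD d])).card : ℝ) - (S : ℝ) / d| ≤ 1 := by
  have h := Nat.Ico_filter_modEq_card M (M + S) hd r
  have hd0 : (0 : ℚ) < d := by exact_mod_cast hd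
  set u : ℚ := ((M + S : ℕ) - (r : ℚ)) / d with hu
  set w : ℚ := ((M : ℚ) - r) / d with hw
  have e : u - w = S / d := by rw [hu, hw]; push_cast; ring
  have h1 := Int.le_ceil u
  have h2 := Int.ceil_lt_add_one u
  have h3 := Int.le_ceil w
  have h4 := Int.ceil_lt_add_one w
  have hS : (0 : ℚ) ≤ (S : ℚ) / d := by positivity
  have h5 : ((((Ico M (M + S)).filter (fun n => n ≡ r [MOD d])).card : ℤ) : ℚ) = max ((⌈u⌉ : ℚ) - ⌈w⌉) 0 := by
    have := congrArg (fun z : ℤ => (z : ℚ)) h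
    push_cast at this
    push_cast
    rw [this]
  have h6 : ((((Ico M (M + S)).filter (fun n => n ≡ r [MOD d])).card : ℚ)) = max ((⌈u⌉ : ℚ) - ⌈w⌉) 0 := by
    exact_mod_cast h5
  have h7 : |((((Ico M (M + S)).filter (fun n => n ≡ r [MOD d])).card : ℚ)) - S / d| ≤ 1 := by
    rw [h6, ← e, abs_le]
    rw [← e] at hS
    rcases max_cases ((⌈u⌉ : ℚ) - ⌈w⌉) 0 with ⟨h8, h9⟩ | ⟨h8, h9⟩
    · rw [h8]
      constructor <;> linarith
    · rw [h8]
      constructor <;> linarith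
  have h8 : ((|((((Ico M (M + S)).filter (fun n => n ≡ r [MOD d])).card : ℚ)) - S / d| : ℚ) : ℝ) ≤ ((1 : ℚ) : ℝ) := by
    exact_mod_cast h7
  push_cast at h8
  exact h8

open Classical in
/-- in an interval of length `y ^ (2 K)` there are more than `y` integers outside the removed classes -/
theorem interval : ∃ K X₀ : ℕ, 1 ≤ K ∧ 3 ≤ X₀ ∧ ∀ y : ℕ, X₀ ≤ y → ∀ Q : ℕ → ℕ → Prop, Adm Q 2 → ∀ M : ℕ,
    2 * y ≤ ((Ico M (M + y ^ (2 * K))).filter (fun n => ∀ p ∈ pz y, ¬ Q p n)).card := by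
  obtain ⟨K, X₀, hK, h⟩ := uni_asym 2 (by norm_num) (1 / 2) (by norm_num)
  obtain ⟨c1, hc1, hV⟩ := VQ_low 2 (by norm_num)
  have hev : ∀ᶠ X : ℝ in atTop, 4 / c1 * Real.log X ^ 2 ≤ X := by
    have h1 := (Real.isLittleO_pow_log_id_atTop (n := 2)).def (show (0 : ℝ) < c1 / 4 by positivity)
    filter_upwards [h1, eventually_ge_atTop (1 : ℝ)] with X hX hX1
    rw [Real.norm_eq_abs, abs_of_nonneg (pow_nonneg (Real.log_nonneg hX1) _), id, Real.norm_eq_abs,
      abs_of_nonneg (by linarith)] at hX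
    rw [div_mul_eq_mul_div, div_le_iff₀ (by positivity)]
    linarith
  obtain ⟨X1, hX1⟩ := eventually_atTop.mp hev
  refine ⟨K, max (max X₀ 3) ⌈X1⌉₊, hK, (le_max_right _ _).trans (le_max_left _ _), fun y hy Q hQ M => ?_⟩
  have hy0 : X₀ ≤ y := ((le_max_left _ _).trans (le_max_left _ _)).trans hy
  have hy3 : 3 ≤ y := ((le_max_right _ _).trans (le_max_left _ _)).trans hy
  have hyX : X1 ≤ (y : ℝ) := (Nat.le_ceil _).trans (by exact_mod_cast (le_max_right _ _).trans hy)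
  have hyr : (3 : ℝ) ≤ y := by exact_mod_cast hy3
  have hyK : y ≤ y ^ K := Nat.le_self_pow (by omega) y
  have hA : (0 : ℝ) ≤ (y : ℝ) ^ (2 * K) := by positivity
  have hE : Equi (y ^ K) (Ico M (M + y ^ (2 * K))) id ((y : ℝ) ^ (2 * K)) := by
    intro d hd _ r
    have h1 := card_modEq M (y ^ (2 * K)) d r hd
    have e1 : (y : ℝ) ^ (2 * K) / ((y ^ K : ℕ) : ℝ) ^ 2 = 1 := by
      push_cast
      rw [← pow_mul, mul_comm K 2]
      exact div_self (by positivity)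
    rw [e1]
    push_cast at h1
    exact h1
  have key := h (y ^ K) (hy0.trans hyK) (Ico M (M + y ^ (2 * K))) id ((y : ℝ) ^ (2 * K)) hA hE y hy3 le_rfl Q hQ
  have hlog : 0 < Real.log y := Real.log_pos (by linarith)
  have h1 := hV Q hQ y hy3
  have h2 := hX1 y hyX
  rw [abs_le] at key
  have h3 : (y : ℝ) ^ (2 * K) * VQ Q y / 2 ≤
      (((Ico M (M + y ^ (2 * K))).filter (fun n => ∀ p ∈ pz y, ¬ Q p n)).card : ℝ) := by
    have := key.1
    simp only [id] at this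
    have e : (((Ico M (M + y ^ (2 * K))).filter (fun n => ∀ p ∈ pz y, ¬ Q p n)).card : ℝ) =
      ((filter (fun n ↦ ∀ p ∈ pz y, ¬Q p n) (Ico M (M + y ^ (2 * K)))).card : ℝ) := rfl
    linarith
  have h4 : (y : ℝ) ^ 2 ≤ (y : ℝ) ^ (2 * K) := by
    apply pow_le_pow_right₀ (by linarith)
    omega
  have h5 : (2 * y : ℝ) ≤ (y : ℝ) ^ (2 * K) * VQ Q y / 2 := by
    have h6 : 4 ≤ y * (c1 / Real.log y ^ 2) := by
      rw [mul_div_assoc', le_div_iff₀ (by positivity)]
      rw [div_mul_eq_mul_div, div_le_iff₀ hc1] at h2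
      linarith
    calc (2 * y : ℝ) = y * 4 / 2 := by ring
      _ ≤ y * (y * (c1 / Real.log y ^ 2)) / 2 := by gcongr
      _ = (y : ℝ) ^ 2 * (c1 / Real.log y ^ 2) / 2 := by ring
      _ ≤ _ := by gcongr
  exact_mod_cast h5.trans h3

end Pool.Agent.X55.Baker
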